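import Pool.Agent.Helper91.SM.SMI
import Pool.Agent.Helper91.SM.Hoare

/-!
Repairing a matching with exactly one blocking pair: definitions.
-/

namespace Pool.Agent.Helper65.OBP

open Finset Pool.Agent.Helper91.SM

/-- the pairs of a matching that is given by the partners of the men: `f i = j + 1` if man `i`
is matched to woman `j` -/
def Pairs (I : SMI) (f : ℕ → ℤ) : ℕ → ℕ → Prop := fun i j => i < I.nm ∧ f i = (j : ℤ) + 1

/-- `f` is a matching of `I` that has exactly one blocking pair, and the man of this pair has only
one woman on his list -/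
def OneBlock (I : SMI) (f : ℕ → ℤ) : Prop :=
  I.IsMatching (Pairs I f) ∧
    ∃ i j, (∀ i' j', I.Blocks (Pairs I f) i' j' ↔ i' = i ∧ j' = j) ∧ I.men i = [j]

/-- Input of the repair problem: the input arrays of `I`, and entry `i` of array 3 holds `f i` for
every man `i`. -/
def encodeOne (I : SMI) (f : ℕ → ℤ) : Mem :=
  Function.update I.encode 3 (fun i _ _ => if i < I.nm then f i else 0)

/-- the program `P` with word bound `(size + 2) ^ c` finds a stable matching of every instance of
size `s` in parallel time at most `T s` -/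
def SolvesSMI (P : Prog) (c : ℕ) (T : ℕ → ℕ) : Prop := ∀ I : SMI,
  I.Stable (fun i j => i < I.nm ∧ exec ((I.size + 2) ^ c) P I.encode 3 i 0 0 = (j : ℤ) + 1) ∧
  time ((I.size + 2) ^ c) P I.encode ≤ T I.size

/-- the program `P` with word bound `(size + 2) ^ c` finds a stable matching of every instance of
size `s` that is given together with a matching with exactly one blocking pair, in parallel time
at most `T s` -/
def SolvesOne (P : Prog) (c : ℕ) (T : ℕ → ℕ) : Prop := ∀ (I : SMI) (f : ℕ → ℤ), OneBlock I f →
  I.Stable (fun i j => i < I.nm ∧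
    exec ((I.size + 2) ^ c) P (encodeOne I f) 3 i 0 0 = (j : ℤ) + 1) ∧
  time ((I.size + 2) ^ c) P (encodeOne I f) ≤ T I.size

/-! ### the instance J -/

/-- number of persons -/
def NN (I : SMI) : ℕ := I.nm + I.nw

/-- lists of the men of `J` -/
def menJ (I : SMI) (i : ℕ) : List ℕ :=
  if i < I.nm then (NN I + i) :: (I.men i ++ [I.nw + i])
  else if i < NN I then (NN I + i) :: ((I.women (i - I.nm)).map (fun x => I.nw + x) ++ [i - I.nm])
  else if i < 2 * NN I then [i - NN I, i, i + 1]
  else [NN I]

/-- lists of the women of `J` -/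
def womenJ (I : SMI) (j : ℕ) : List ℕ :=
  if j < I.nw then I.women j ++ [I.nm + j, NN I + j]
  else if j < NN I then (I.men (j - I.nw)).map (fun x => I.nm + x) ++ [j - I.nw, NN I + j]
  else if j < 2 * NN I then [if j = NN I then 2 * NN I else j - 1, j, j - NN I]
  else [if j = NN I then 2 * NN I else j - 1]

/-- the matching of `J` with one blocking pair -/
def fJ (I : SMI) (i : ℕ) : ℤ :=
  if i < NN I then ((NN I + i : ℕ) : ℤ) + 1 else if i < 2 * NN I then ((i - NN I : ℕ) : ℤ) + 1
  else 0

end Pool.Agent.Helper65.OBP
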