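import Pool.Agent.Helper65.OBP.Pre2

/-!
The complete program.
-/

namespace Pool.Agent.Helper65.OBP

open Finset Pool.Agent.Helper91.SM Pool.Agent.Helper91.SM.Term Pool.Agent.Helper91.SM.SMI

variable {I : SMI} {q c W : ℕ} {m : Mem}

/-- entries of the arrays of `J` are small -/
lemma codeM_bd (i k : ℕ) : |(if i < 2 * NN I + 1 then code (menJ I i) k else 0 : ℤ)| ≤
    2 * NN I + 1 := by
  split_ifs with h
  · rw [abs_of_nonneg (code_nonneg _ _)]
    have := code_le (l := menJ I i) (k := k) (B := 2 * NN I + 1)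
      (fun x hx => (JJ I).men_lt i h x hx)
    push_cast at this
    exact this
  · rw [abs_zero]; positivity

lemma codeW_bd (j k : ℕ) : |(if j < 2 * NN I + 1 then code (womenJ I j) k else 0 : ℤ)| ≤
    2 * NN I + 1 := by
  split_ifs with h
  · rw [abs_of_nonneg (code_nonneg _ _)]
    have := code_le (l := womenJ I j) (k := k) (B := 2 * NN I + 1)
      (fun x hx => (JJ I).women_lt j h x hx)
    push_cast at this
    exact this
  · rw [abs_zero]; positivity

lemma codeM_far (hW : (JJ I).size + 2 < W) {i k : ℕ} (h : W ≤ i ∨ W ≤ k) :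
    (if i < 2 * NN I + 1 then code (menJ I i) k else 0 : ℤ) = 0 := by
  have hs := sizeJ I
  split_ifs with h1
  · rcases h with h | h
    · omega
    · have := men_len_le (JJ I) h1
      have h2 : (menJ I i).length ≤ k := by
        have h3 : (JJ I).men = menJ I := rfl
        rw [h3] at this; omega
      exact code_ge h2
  · rfl

lemma codeW_far (hW : (JJ I).size + 2 < W) {i k : ℕ} (h : W ≤ i ∨ W ≤ k) :
    (if i < 2 * NN I + 1 then code (womenJ I i) k else 0 : ℤ) = 0 := by
  have hs := sizeJ I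
  split_ifs with h1
  · rcases h with h | h
    · omega
    · have := women_len_le (JJ I) h1
      have h2 : (womenJ I i).length ≤ k := by
        have h3 : (JJ I).women = womenJ I := rfl
        rw [h3] at this; omega
      exact code_ge h2
  · rfl

/-- state after the second part -/
structure StB (I : SMI) (q c : ℕ) (m : Mem) : Prop where
  w : m q 0 0 0 = (((JJ I).size + 2) ^ c : ℕ)
  nw : m (2 * q + 1) 1 0 0 = I.nw
  a0 : ∀ i, m 0 i 0 0 = (JJ I).encode 0 i 0 0
  a1 : ∀ i k, m 1 i k 0 = (JJ I).encode 1 i k 0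
  a2 : ∀ i k, m 2 i k 0 = (JJ I).encode 2 i k 0
  a3 : ∀ i, m 3 i 0 0 = if i < 2 * NN I + 1 then fJ I i else 0
  fr : ∀ r, 4 ≤ r → r ≠ q → r < 2 * q + 1 → m r = fun _ _ _ => 0

lemma preB_spec (hq : 4 ≤ q) (hW : (JJ I).size + 2 < W) (hm : StA I q c m) :
    StB I q c (exec W (preB (2 * q + 1)) m) := by
  have hN : NN I = I.nm + I.nw := rfl
  have hs := sizeJ I
  have hB0 := hm.base
  have hfr := hm.fr
  have hw := hm.w
  set B := 2 * q + 1 with hB
  set m1 := exec W (.assign (B + 4) (tFM B)) m with hm1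
  set m2 := exec W (.assign 2 (tFW B)) m1 with hm2
  set m3 := exec W (.assign 1 (g2 (B + 4) (.var 0) (.var 1))) m2 with hm3
  set m4 := exec W (.assign 3 (tF3 B)) m3 with hm4
  set m5 := exec W (.assign 0 (tF0 B)) m4 with hm5
  have f1 : ∀ r, r ≠ B + 4 → m1 r = m r := fun r hr => exec_assign_ne _ _ _ _ hr
  have f2 : ∀ r, r ≠ 2 → m2 r = m1 r := fun r hr => exec_assign_ne _ _ _ _ hr
  have f3 : ∀ r, r ≠ 1 → m3 r = m2 r := fun r hr => exec_assign_ne _ _ _ _ hr
  have f4 : ∀ r, r ≠ 3 → m4 r = m3 r := fun r hr => exec_assign_ne _ _ _ _ hr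
  have f5 : ∀ r, r ≠ 0 → m5 r = m4 r := fun r hr => exec_assign_ne _ _ _ _ hr
  have hW0 : 0 < W := by omega
  have hB1 : Base I B m1 := by
    refine ⟨?_, ?_, ?_, ?_, ?_, ?_⟩
    · rw [f1 _ (by omega)]; exact hB0.nm
    · rw [f1 _ (by omega)]; exact hB0.nw
    · rw [f1 _ (by omega)]; exact hB0.lm
    · rw [f1 _ (by omega)]; exact hB0.lw
    · rw [f1 _ (by omega)]; exact hB0.a1
    · rw [f1 _ (by omega)]; exact hB0.a2
  have b1 : ∀ i k, m1 (B + 4) i k 0 = if i < 2 * NN I + 1 then code (menJ I i) k else 0 := by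
    intro i k
    rw [hm1, exec_assign_self]
    by_cases h : i < W ∧ k < W ∧ 0 < W
    · rw [if_pos h, ev_tFM hB0]
      apply store_of_lt
      have := codeM_bd (I := I) i k
      omega
    · rw [if_neg h, codeM_far hW (by omega)]
  have b2 : ∀ i k, m2 2 i k 0 = if i < 2 * NN I + 1 then code (womenJ I i) k else 0 := by
    intro i k
    rw [hm2, exec_assign_self]
    by_cases h : i < W ∧ k < W ∧ 0 < W
    · rw [if_pos h, ev_tFW hB1]
      apply store_of_lt
      have := codeW_bd (I := I) i k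
      omega
    · rw [if_neg h, codeW_far hW (by omega)]
  have b3 : ∀ i k, m3 1 i k 0 = if i < 2 * NN I + 1 then code (menJ I i) k else 0 := by
    intro i k
    rw [hm3, exec_assign_self]
    by_cases h : i < W ∧ k < W ∧ 0 < W
    · rw [if_pos h, ev_g2, ev_var, ev_var, env0, env1, Int.toNat_natCast, Int.toNat_natCast,
        f2 _ (by omega), b1]
      apply store_of_lt
      have := codeM_bd (I := I) i k
      omega
    · rw [if_neg h, codeM_far hW (by omega)]
  have nm3 : m3 B 0 0 0 = I.nm := by rw [f3 _ (by omega), f2 _ (by omega)]; exact hB1.nm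
  have nw3 : m3 B 1 0 0 = I.nw := by rw [f3 _ (by omega), f2 _ (by omega)]; exact hB1.nw
  have b4 : ∀ i, m4 3 i 0 0 = if i < 2 * NN I + 1 then fJ I i else 0 := by
    intro i
    rw [hm4, exec_assign_self]
    have hf : 0 ≤ fJ I i ∧ fJ I i ≤ 2 * NN I := by
      unfold fJ
      split_ifs <;> omega
    by_cases h : i < W ∧ 0 < W ∧ 0 < W
    · rw [if_pos h, ev_tF3 I nm3 nw3, store_of_lt (by rw [abs_of_nonneg hf.1]; omega)]
      split_ifs with h1
      · rfl
      · rw [fJ_3 I (by omega)]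
    · rw [if_neg h, if_neg (by omega)]
  have b5 : ∀ i, m5 0 i 0 0 = if i < 2 then ((2 * NN I + 1 : ℕ) : ℤ) else 0 := by
    intro i
    rw [hm5, exec_assign_self]
    by_cases h : i < W ∧ 0 < W ∧ 0 < W
    · rw [if_pos h, ev_tF0 I (by rw [f4 _ (by omega)]; exact nm3)
        (by rw [f4 _ (by omega)]; exact nw3)]
      apply store_of_lt
      split_ifs
      · rw [abs_of_nonneg (by positivity)]; push_cast; omega
      · rw [abs_zero]; omega
    · rw [if_neg h, if_neg (by omega)]
  show StB I q c m5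
  refine ⟨?_, ?_, ?_, ?_, ?_, ?_, ?_⟩
  · rw [f5 _ (by omega), f4 _ (by omega), f3 _ (by omega), f2 _ (by omega), f1 _ (by omega)]
    exact hw
  · rw [f5 _ (by omega), f4 _ (by omega)]; exact nw3
  · intro i
    rw [b5, enc0]
    have h1 : (JJ I).nm = 2 * NN I + 1 := rfl
    have h2 : (JJ I).nw = 2 * NN I + 1 := rfl
    rw [h1, h2]
    by_cases h : i < 2
    · rw [if_pos h]
      by_cases h0 : i = 0
      · rw [if_pos h0]
      · rw [if_neg h0, if_pos (by omega)]
    · rw [if_neg h, if_neg (by omega), if_neg (by omega)]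
  · intro i k
    rw [f5 _ (by omega), f4 _ (by omega), b3, enc1]
    rfl
  · intro i k
    rw [f5 _ (by omega), f4 _ (by omega), f3 _ (by omega), b2, enc2]
    rfl
  · intro i
    rw [f5 _ (by omega), b4]
  · intro r h1 h2 h3
    rw [f5 _ (by omega), f4 _ (by omega), f3 _ (by omega), f2 _ (by omega), f1 _ (by omega),
      hfr r h2 h3, enc3 _ (by omega)]

lemma preC_spec (hq : 4 ≤ q) (hW3 : 3 ≤ W) (hm : StB I q c m) :
    Rel q (((JJ I).size + 2) ^ c) (encodeOne (JJ I) (fJ I)) (exec W (preC q) m) ∧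
      exec W (preC q) m (2 * q + 1) 1 0 0 = I.nw := by
  set m1 := exec W (.assign (q + 1 + 0) (eqt (.var 0) 0)) m with hm1
  set m2 := exec W (.assign (q + 1 + 1) (.lt (.var 0) 2)) m1 with hm2
  set m3 := exec W (.assign (q + 1 + 2) (.lt (.var 0) 2)) m2 with hm3
  set m4 := exec W (.assign (q + 1 + 3) (eqt (.var 0) 0)) m3 with hm4
  have f1 : ∀ r, r ≠ q + 1 + 0 → m1 r = m r := fun r hr => exec_assign_ne _ _ _ _ hr
  have f2 : ∀ r, r ≠ q + 1 + 1 → m2 r = m1 r := fun r hr => exec_assign_ne _ _ _ _ hr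
  have f3 : ∀ r, r ≠ q + 1 + 2 → m3 r = m2 r := fun r hr => exec_assign_ne _ _ _ _ hr
  have f4 : ∀ r, r ≠ q + 1 + 3 → m4 r = m3 r := fun r hr => exec_assign_ne _ _ _ _ hr
  have hiv : ∀ p : Prop, store W (iv p) = iv p := fun p => store_iv (by omega) p
  have g0' : ∀ x < 3, m4 (q + 1 + 0) x 0 0 = iv (x = 0) := by
    intro x hx
    rw [f4 _ (by omega), f3 _ (by omega), f2 _ (by omega), hm1, exec_assign_self,
      if_pos ⟨by omega, by omega, by omega⟩, eval_eqt, ev_var, env0, ev_zero, hiv]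
    exact iv_congr (by norm_cast)
  have g1' : ∀ x < 3, m4 (q + 1 + 1) x 0 0 = iv (x < 2) := by
    intro x hx
    rw [f4 _ (by omega), f3 _ (by omega), hm2, exec_assign_self,
      if_pos ⟨by omega, by omega, by omega⟩, eval_lt, ev_var, env0, ev_num, hiv]
    exact iv_congr (by norm_cast)
  have g2' : ∀ x < 3, m4 (q + 1 + 2) x 0 0 = iv (x < 2) := by
    intro x hx
    rw [f4 _ (by omega), hm3, exec_assign_self,
      if_pos ⟨by omega, by omega, by omega⟩, eval_lt, ev_var, env0, ev_num, hiv]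
    exact iv_congr (by norm_cast)
  have g3' : ∀ x < 3, m4 (q + 1 + 3) x 0 0 = iv (x = 0) := by
    intro x hx
    rw [hm4, exec_assign_self,
      if_pos ⟨by omega, by omega, by omega⟩, eval_eqt, ev_var, env0, ev_zero, hiv]
    exact iv_congr (by norm_cast)
  have fr : ∀ r, (r < q + 1 ∨ q + 5 ≤ r) → m4 r = m r := by
    intro r hr
    rw [f4 _ (by omega), f3 _ (by omega), f2 _ (by omega), f1 _ (by omega)]
  have g4' : ∀ r, 4 ≤ r → r < q → ∀ x, m4 (q + 1 + r) x 0 0 = 0 := by
    intro r h1 h2 x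
    rw [fr _ (by omega), hm.fr _ (by omega) (by omega) (by omega)]
  have tn0 : (iv True).toNat = 1 := by rw [iv_pos trivial]; rfl
  have tn1 : (iv False).toNat = 0 := by rw [iv_neg id]; rfl
  have z0 : (0 : ℤ).toNat = 0 := rfl
  show Rel q (((JJ I).size + 2) ^ c) (encodeOne (JJ I) (fJ I)) m4 ∧ m4 (2 * q + 1) 1 0 0 = I.nw
  refine ⟨⟨?_, ?_, ?_⟩, ?_⟩
  · rw [fr _ (by omega)]; exact hm.w
  · intro r hr x hx
    have hp : ∀ p : Prop, iv p = 0 ∨ iv p = 1 := by
      intro p; by_cases h : p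
      · right; exact iv_pos h
      · left; exact iv_neg h
    by_cases h4 : 4 ≤ r
    · left; exact g4' r h4 hr x
    · have : r = 0 ∨ r = 1 ∨ r = 2 ∨ r = 3 := by omega
      rcases this with rfl | rfl | rfl | rfl
      · rw [g0' x hx]; exact hp _
      · rw [g1' x hx]; exact hp _
      · rw [g2' x hx]; exact hp _
      · rw [g3' x hx]; exact hp _
  · intro r hr i j k
    by_cases h4 : 4 ≤ r
    · rw [g4' r h4 hr 0, g4' r h4 hr 1, g4' r h4 hr 2, z0, zero_mul, zero_mul, zero_mul,
        fr _ (by omega), hm.fr _ h4 (by omega) (by omega)]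
      unfold encodeOne
      rw [Function.update_of_ne (by omega), enc3 _ (by omega)]
    · have : r = 0 ∨ r = 1 ∨ r = 2 ∨ r = 3 := by omega
      rcases this with rfl | rfl | rfl | rfl
      · rw [g0' 0 (by norm_num), g0' 1 (by norm_num), g0' 2 (by norm_num)]
        simp only [OfNat.ofNat_ne_zero, one_ne_zero, tn0, tn1, one_mul, zero_mul]
        rw [fr _ (by omega), hm.a0]
        unfold encodeOne
        rw [Function.update_of_ne (by omega), enc0, enc0]
      · rw [g1' 0 (by norm_num), g1' 1 (by norm_num), g1' 2 (by norm_num)]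
        simp only [lt_self_iff_false, Nat.one_lt_ofNat, Nat.ofNat_pos, tn0, tn1, one_mul, zero_mul]
        rw [fr _ (by omega), hm.a1]
        unfold encodeOne
        rw [Function.update_of_ne (by omega), enc1, enc1]
      · rw [g2' 0 (by norm_num), g2' 1 (by norm_num), g2' 2 (by norm_num)]
        simp only [lt_self_iff_false, Nat.one_lt_ofNat, Nat.ofNat_pos, tn0, tn1, one_mul, zero_mul]
        rw [fr _ (by omega), hm.a2]
        unfold encodeOne
        rw [Function.update_of_ne (by omega), enc2, enc2]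
      · rw [g3' 0 (by norm_num), g3' 1 (by norm_num), g3' 2 (by norm_num)]
        simp only [OfNat.ofNat_ne_zero, one_ne_zero, tn0, tn1, one_mul, zero_mul]
        rw [fr _ (by omega), hm.a3]
        unfold encodeOne
        rw [Function.update_self]
        rfl
  · rw [fr _ (by omega)]; exact hm.nw

/-! ### the complete program -/

/-- entry `i` of the output -/
def tOut (q : ℕ) : Term := cT q (g1 3 (.var 0)) * .lt (cT q (g1 3 (.var 0))) (g1 (2 * q + 1) 1 + 1)

def whole (q c : ℕ) (P : Prog) : Prog :=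
  .seq (pre q c) (.seq (cP q P) (.assign 3 (tOut q)))

lemma mods_cT (q : ℕ) (P : Prog) (hP : PB q P) : ∀ r, 2 * q + 1 ≤ r → r ∉ mods (cP q P) := by
  induction P with
  | assign r t =>
    intro r' hr
    have := hP.1
    simp only [cP, mods, Finset.mem_union, Finset.mem_singleton, not_or]
    omega
  | seq p p' h1 h2 =>
    intro r' hr
    simp only [cP, mods, Finset.mem_union, not_or]
    exact ⟨h1 hP.1 r' hr, h2 hP.2 r' hr⟩
  | loop r t p h =>
    intro r' hr
    have := hP.1
    simp only [cP, mods, Finset.mem_union, Finset.mem_insert, Finset.mem_singleton, not_or]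
    exact ⟨by omega, by omega, by omega, h hP.2.2 r' hr⟩

lemma clog_pow_le' (s k : ℕ) : Nat.clog 2 ((s + 2) ^ k) ≤ k * Nat.clog 2 (s + 2) := by
  apply Nat.clog_le_of_le_pow
  calc (s + 2) ^ k ≤ (2 ^ Nat.clog 2 (s + 2)) ^ k :=
        Nat.pow_le_pow_left (Nat.le_pow_clog (by norm_num) _) _
    _ = 2 ^ (k * Nat.clog 2 (s + 2)) := by rw [← pow_mul, Nat.mul_comm]

lemma sJ_pow (s sJ : ℕ) (h : sJ ≤ 14 * s + 4) : sJ + 2 ≤ (s + 2) ^ 4 := by
  have : (s + 2) ^ 4 = s * s * s * s + 8 * (s * s * s) + 24 * (s * s) + 32 * s + 16 := by ring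
  rw [this]; omega

lemma total_arith {t p Z c tJ X L l : ℕ} (t2 : p ≤ Z * 14 * (L + 1))
    (t3 : t ≤ (3 * (4 * c + 4) + 84) * tJ) (t5 : tJ ≤ X) (t6 : L ≤ (4 * c + 4) * l) (hl : 1 ≤ l) :
    p + (t + 46) ≤ (Z * 14 * (4 * c + 5) + 46 + (12 * c + 96)) * (X + l) := by
  have t7 : t ≤ (12 * c + 96) * X := by
    calc _ ≤ _ := t3
      _ ≤ (3 * (4 * c + 4) + 84) * X := Nat.mul_le_mul_left _ t5
      _ = _ := by ring
  have t8 : p ≤ Z * 14 * (4 * c + 5) * l := by
    calc _ ≤ _ := t2
      _ ≤ Z * 14 * ((4 * c + 5) * l) := by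
        apply Nat.mul_le_mul_left
        calc L + 1 ≤ (4 * c + 4) * l + l := by omega
          _ = _ := by ring
      _ = _ := by ring
  have t9 : (Z * 14 * (4 * c + 5) + 46 + (12 * c + 96)) * (X + l) =
      Z * 14 * (4 * c + 5) * X + 46 * X + (12 * c + 96) * X +
        (Z * 14 * (4 * c + 5) * l + 46 * l + (12 * c + 96) * l) := by ring
  rw [t9]
  have : 46 ≤ 46 * l := by omega
  omega

theorem whole_spec {P : Prog} {T : ℕ → ℕ} (hT : Monotone T) (hP : SolvesOne P c T) (hq : 4 ≤ q)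
    (hPq : PB q P) : SolvesSMI (whole q c P) (4 * c + 4)
      (fun s => (psize (pre q c) * 14 * (4 * c + 5) + 46 + (12 * c + 96)) *
        (T (14 * s + 4) + Nat.clog 2 (s + 2))) := by
  intro I
  have hc := c_ne_zero hP
  set s := I.size with hs
  set W := (s + 2) ^ (4 * c + 4) with hW
  set W₀ := ((JJ I).size + 2) ^ c with hW₀
  have hJ := sizeJ_le I
  have h1 := sJ_pow s (JJ I).size hJ
  have hpos : 0 < (s + 2) ^ (4 * c) := by positivity
  have h16 : 16 ≤ (s + 2) ^ 4 := by
    calc 16 = 2 ^ 4 := by norm_num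
      _ ≤ (s + 2) ^ 4 := Nat.pow_le_pow_left (by omega) 4
  have hWe : W = (s + 2) ^ (4 * c) * (s + 2) ^ 4 := by rw [hW, pow_add]
  have h2 : (s + 2) ^ 4 ≤ (s + 2) ^ (4 * c) :=
    Nat.pow_le_pow_right (by omega) (by omega)
  have h3 : W₀ ≤ (s + 2) ^ (4 * c) := by
    rw [hW₀, pow_mul]
    exact Nat.pow_le_pow_left h1 c
  have hWW : W₀ < W := by nlinarith
  have hW1 : (JJ I).size + 2 < W := by nlinarith
  have hW3 : 3 ≤ W := by nlinarith
  set m0 := I.encode with hm0
  set m1 := exec W (preA q c (2 * q + 1)) m0 with hm1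
  set m2 := exec W (preB (2 * q + 1)) m1 with hm2
  set m3 := exec W (preC q) m2 with hm3
  set m4 := exec W (cP q P) m3 with hm4
  have s1 : StA I q c m1 := preA_spec I hq hW1 hWW
  have s2 : StB I q c m2 := preB_spec hq hW1 s1
  obtain ⟨hR, hnw⟩ := preC_spec hq hW3 s2
  obtain ⟨hst, htime⟩ := hP (JJ I) (fJ I) (oneBlock I)
  have hR4 := sim hW3 hWW.le P hPq _ _ hR
  have hnw4 : m4 (2 * q + 1) 1 0 0 = I.nw := by
    rw [hm4, exec_frame _ _ _ _ (mods_cT q P hPq _ le_rfl)]
    exact hnw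
  set v : ℕ → ℤ := fun i => exec W₀ P (encodeOne (JJ I) (fJ I)) 3 i 0 0 with hv
  have hout : ∀ i < W, exec W (whole q c P) m0 3 i 0 0 =
      store W (v i * iv (v i < (I.nw : ℤ) + 1)) := by
    intro i hi
    show exec W (.assign 3 (tOut q)) m4 3 i 0 0 = _
    rw [exec_assign_self, if_pos ⟨hi, by omega, by omega⟩]
    have e1 : eval W m4 (cT q (g1 3 (.var 0))) (env i (0:ℕ) (0:ℕ)) = v i := by
      have hTB : TB q (g1 3 (.var 0)) := ⟨by omega, trivial, trivial, trivial⟩
      rw [eval_cT hWW.le hR4 _ hTB, ev_g1, ev_var, env0, Int.toNat_natCast]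
    unfold tOut
    rw [ev_mul, eval_lt, e1, ev_add, ev_g1, ev_one]
    have e2 : (1 : ℤ).toNat = 1 := rfl
    rw [e2, hnw4]
  refine ⟨?_, ?_⟩
  · have hres := restrict hst
    have hEq : (fun i j : ℕ => (i < I.nm ∧ j < I.nw) ∧ (i < (JJ I).nm ∧ v i = (j : ℤ) + 1)) =
        (fun i j : ℕ => i < I.nm ∧ exec W (whole q c P) m0 3 i 0 0 = (j : ℤ) + 1) := by
      funext i j
      apply propext
      have hnmJ : (JJ I).nm = 2 * NN I + 1 := rfl
      have hN : NN I = I.nm + I.nw := rfl
      have hsz := sizeJ I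
      constructor
      · rintro ⟨⟨h4, h5⟩, _, h6⟩
        refine ⟨h4, ?_⟩
        rw [hout i (by omega), h6, iv_pos (by omega), mul_one]
        exact store_of_lt (by rw [abs_of_nonneg (by positivity)]; omega)
      · rintro ⟨h4, h5⟩
        rw [hout i (by omega)] at h5
        have h6 : v i * iv (v i < (I.nw : ℤ) + 1) = (j : ℤ) + 1 := by
          unfold store at h5
          split_ifs at h5 with h7
          · exact h5
          · omega
        by_cases h7 : v i < (I.nw : ℤ) + 1
        · rw [iv_pos h7, mul_one] at h6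
          exact ⟨⟨h4, by omega⟩, by omega, h6⟩
        · rw [iv_neg h7, mul_zero] at h6
          omega
    rw [← hEq]
    exact hres
  · have t1 : time W (whole q c P) m0 = time W (pre q c) m0 + (time W (cP q P) m3 +
        cost W (tOut q)) := rfl
    have t2 := time_pre W q c m0
    have hκ : Nat.clog 2 W ≤ (4 * c + 4) * (Nat.clog 2 W₀ + 1) := by
      have a1 := clog_pow_le' s (4 * c + 4)
      have a2 : Nat.clog 2 (s + 2) ≤ Nat.clog 2 W₀ := by
        apply Nat.clog_mono_right
        have a3 : (JJ I).size + 2 ≤ W₀ := by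
          rw [hW₀]; exact Nat.le_self_pow hc _
        have a4 := sizeJ I
        have a5 := size_eq I
        omega
      calc Nat.clog 2 W ≤ (4 * c + 4) * Nat.clog 2 (s + 2) := a1
        _ ≤ (4 * c + 4) * (Nat.clog 2 W₀ + 1) := Nat.mul_le_mul_left _ (by omega)
    have t3 := sim_time hW3 hWW.le hκ P hPq _ _ hR
    have t4 : cost W (tOut q) = 46 := rfl
    have t5 : T (JJ I).size ≤ T (14 * s + 4) := hT hJ
    have t6 := clog_pow_le' s (4 * c + 4)
    rw [← hW] at t6
    have hl : 1 ≤ Nat.clog 2 (s + 2) := Nat.clog_pos (by norm_num) (by omega)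
    set l := Nat.clog 2 (s + 2) with hldef
    set X := T (14 * s + 4) with hX
    rw [t1, t4]
    exact total_arith t2 t3 (htime.trans t5) t6 hl

end Pool.Agent.Helper65.OBP
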