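import Pool.Agent.Helper65.OBP.Defs

/-!
The instance `J`.
-/

namespace Pool.Agent.Helper65.OBP

open Finset Pool.Agent.Helper91.SM

variable (I : SMI)

lemma menJ_1 {i : ℕ} (h : i < I.nm) : menJ I i = (NN I + i) :: (I.men i ++ [I.nw + i]) := by
  unfold menJ; rw [if_pos h]

lemma menJ_2 {i : ℕ} (h1 : I.nm ≤ i) (h2 : i < NN I) : menJ I i =
    (NN I + i) :: ((I.women (i - I.nm)).map (fun x => I.nw + x) ++ [i - I.nm]) := by
  unfold menJ; rw [if_neg (by omega), if_pos h2]

lemma menJ_3 {i : ℕ} (h1 : NN I ≤ i) (h2 : i < 2 * NN I) : menJ I i = [i - NN I, i, i + 1] := by
  unfold menJ
  have h3 : I.nm ≤ NN I := by unfold NN; omega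
  rw [if_neg (by omega), if_neg (by omega), if_pos h2]

lemma menJ_4 {i : ℕ} (h1 : 2 * NN I ≤ i) : menJ I i = [NN I] := by
  unfold menJ
  have h3 : I.nm ≤ NN I := by unfold NN; omega
  rw [if_neg (by omega), if_neg (by omega), if_neg (by omega)]

lemma womenJ_1 {j : ℕ} (h : j < I.nw) : womenJ I j = I.women j ++ [I.nm + j, NN I + j] := by
  unfold womenJ; rw [if_pos h]

lemma womenJ_2 {j : ℕ} (h1 : I.nw ≤ j) (h2 : j < NN I) : womenJ I j =
    (I.men (j - I.nw)).map (fun x => I.nm + x) ++ [j - I.nw, NN I + j] := by
  unfold womenJ; rw [if_neg (by omega), if_pos h2]

lemma womenJ_3 {j : ℕ} (h1 : NN I ≤ j) (h2 : j < 2 * NN I) : womenJ I j =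
    [if j = NN I then 2 * NN I else j - 1, j, j - NN I] := by
  unfold womenJ
  have h3 : I.nw ≤ NN I := by unfold NN; omega
  rw [if_neg (by omega), if_neg (by omega), if_pos h2]

lemma womenJ_4 {j : ℕ} (h1 : 2 * NN I ≤ j) : womenJ I j =
    [if j = NN I then 2 * NN I else j - 1] := by
  unfold womenJ
  have h3 : I.nw ≤ NN I := by unfold NN; omega
  rw [if_neg (by omega), if_neg (by omega), if_neg (by omega)]

lemma mem_menJ_1 {i j : ℕ} (h : i < I.nm) :
    j ∈ menJ I i ↔ j = NN I + i ∨ j ∈ I.men i ∨ j = I.nw + i := by
  rw [menJ_1 I h]; simp

lemma mem_menJ_2 {i j : ℕ} (h1 : I.nm ≤ i) (h2 : i < NN I) : j ∈ menJ I i ↔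
    j = NN I + i ∨ (I.nw ≤ j ∧ j - I.nw ∈ I.women (i - I.nm)) ∨ j = i - I.nm := by
  rw [menJ_2 I h1 h2]
  simp only [List.mem_cons, List.mem_append, List.mem_map, List.not_mem_nil, or_false]
  have : (∃ a ∈ I.women (i - I.nm), I.nw + a = j) ↔
      (I.nw ≤ j ∧ j - I.nw ∈ I.women (i - I.nm)) := by
    constructor
    · rintro ⟨a, ha, rfl⟩
      exact ⟨by omega, by rwa [Nat.add_sub_cancel_left]⟩
    · rintro ⟨h, ha⟩
      exact ⟨j - I.nw, ha, by omega⟩
  rw [this]

lemma mem_menJ_3 {i j : ℕ} (h1 : NN I ≤ i) (h2 : i < 2 * NN I) : j ∈ menJ I i ↔
    j = i - NN I ∨ j = i ∨ j = i + 1 := by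
  rw [menJ_3 I h1 h2]; simp

lemma mem_menJ_4 {i j : ℕ} (h1 : 2 * NN I ≤ i) : j ∈ menJ I i ↔ j = NN I := by
  rw [menJ_4 I h1]; simp

lemma mem_womenJ_1 {i j : ℕ} (h : j < I.nw) :
    i ∈ womenJ I j ↔ i ∈ I.women j ∨ i = I.nm + j ∨ i = NN I + j := by
  rw [womenJ_1 I h]; simp

lemma mem_womenJ_2 {i j : ℕ} (h1 : I.nw ≤ j) (h2 : j < NN I) : i ∈ womenJ I j ↔
    (I.nm ≤ i ∧ i - I.nm ∈ I.men (j - I.nw)) ∨ i = j - I.nw ∨ i = NN I + j := by
  rw [womenJ_2 I h1 h2]
  simp only [List.mem_cons, List.mem_append, List.mem_map, List.not_mem_nil, or_false]
  have : (∃ a ∈ I.men (j - I.nw), I.nm + a = i) ↔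
      (I.nm ≤ i ∧ i - I.nm ∈ I.men (j - I.nw)) := by
    constructor
    · rintro ⟨a, ha, rfl⟩
      exact ⟨by omega, by rwa [Nat.add_sub_cancel_left]⟩
    · rintro ⟨h, ha⟩
      exact ⟨i - I.nm, ha, by omega⟩
  rw [this]

lemma mem_womenJ_3 {i j : ℕ} (h1 : NN I ≤ j) (h2 : j < 2 * NN I) : i ∈ womenJ I j ↔
    i = (if j = NN I then 2 * NN I else j - 1) ∨ i = j ∨ i = j - NN I := by
  rw [womenJ_3 I h1 h2]; simp

lemma mem_womenJ_4 {i j : ℕ} (h1 : 2 * NN I ≤ j) : i ∈ womenJ I j ↔
    i = (if j = NN I then 2 * NN I else j - 1) := by
  rw [womenJ_4 I h1]; simp

lemma bothJ {i j : ℕ} (hi : i < 2 * NN I + 1) (hj : j < 2 * NN I + 1) :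
    j ∈ menJ I i ↔ i ∈ womenJ I j := by
  have hN : NN I = I.nm + I.nw := rfl
  rcases lt_or_ge i I.nm with a1 | a1
  · rw [mem_menJ_1 I a1]
    have hA : ∀ j, j ∈ I.men i → j < I.nw := fun j h => I.men_lt i a1 j h
    rcases lt_or_ge j I.nw with b1 | b1
    · rw [mem_womenJ_1 I b1]
      have := I.both i a1 j b1
      constructor
      · rintro (h | h | h)
        · omega
        · exact Or.inl (this.1 h)
        · omega
      · rintro (h | h | h)
        · exact Or.inr (Or.inl (this.2 h))
        · omega
        · omega
    · have hn : j ∉ I.men i := fun h => by have := hA j h; omega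
      rcases lt_or_ge j (NN I) with b2 | b2
      · rw [mem_womenJ_2 I b1 b2]
        constructor
        · rintro (h | h | h)
          · omega
          · exact absurd h hn
          · right; left; omega
        · rintro (h | h | h)
          · omega
          · right; right; omega
          · omega
      · rcases lt_or_ge j (2 * NN I) with b3 | b3
        · rw [mem_womenJ_3 I b2 b3]
          constructor
          · rintro (h | h | h)
            · right; right; omega
            · exact absurd h hn
            · omega
          · rintro (h | h | h)
            · split_ifs at h <;> omega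
            · omega
            · left; omega
        · rw [mem_womenJ_4 I b3]
          constructor
          · rintro (h | h | h)
            · omega
            · exact absurd h hn
            · omega
          · intro h
            split_ifs at h <;> omega
  · rcases lt_or_ge i (NN I) with a2 | a2
    · rw [mem_menJ_2 I a1 a2]
      have hx : i - I.nm < I.nw := by omega
      have hA : ∀ x, x ∈ I.women (i - I.nm) → x < I.nm := fun x h => I.women_lt _ hx x h
      rcases lt_or_ge j I.nw with b1 | b1
      · rw [mem_womenJ_1 I b1]
        have hB : i ∉ I.women j := fun h => by have := I.women_lt j b1 i h; omega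
        constructor
        · rintro (h | h | h)
          · omega
          · omega
          · right; left; omega
        · rintro (h | h | h)
          · exact absurd h hB
          · right; right; omega
          · omega
      · rcases lt_or_ge j (NN I) with b2 | b2
        · rw [mem_womenJ_2 I b1 b2]
          have := I.both (j - I.nw) (by omega) (i - I.nm) hx
          constructor
          · rintro (h | h | h)
            · omega
            · exact Or.inl ⟨a1, this.2 h.2⟩
            · omega
          · rintro (h | h | h)
            · exact Or.inr (Or.inl ⟨b1, this.1 h.2⟩)
            · omega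
            · omega
        · have hn : ¬ (j - I.nw ∈ I.women (i - I.nm)) := fun h => by have := hA _ h; omega
          rcases lt_or_ge j (2 * NN I) with b3 | b3
          · rw [mem_womenJ_3 I b2 b3]
            constructor
            · rintro (h | h | h)
              · right; right; omega
              · exact absurd h.2 hn
              · omega
            · rintro (h | h | h)
              · split_ifs at h <;> omega
              · omega
              · left; omega
          · rw [mem_womenJ_4 I b3]
            constructor
            · rintro (h | h | h)
              · omega
              · exact absurd h.2 hn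
              · omega
            · intro h
              split_ifs at h <;> omega
    · rcases lt_or_ge i (2 * NN I) with a3 | a3
      · rw [mem_menJ_3 I a2 a3]
        rcases lt_or_ge j I.nw with b1 | b1
        · rw [mem_womenJ_1 I b1]
          have hB : i ∉ I.women j := fun h => by have := I.women_lt j b1 i h; omega
          constructor
          · rintro (h | h | h)
            · right; right; omega
            · omega
            · omega
          · rintro (h | h | h)
            · exact absurd h hB
            · omega
            · left; omega
        · rcases lt_or_ge j (NN I) with b2 | b2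
          · rw [mem_womenJ_2 I b1 b2]
            have hB : ¬ (i - I.nm ∈ I.men (j - I.nw)) := fun h => by
              have := I.men_lt (j - I.nw) (by omega) _ h; omega
            constructor
            · rintro (h | h | h)
              · right; right; omega
              · omega
              · omega
            · rintro (h | h | h)
              · exact absurd h.2 hB
              · omega
              · left; omega
          · rcases lt_or_ge j (2 * NN I) with b3 | b3
            · rw [mem_womenJ_3 I b2 b3]
              constructor
              · rintro (h | h | h)
                · omega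
                · right; left; omega
                · left; rw [if_neg (by omega)]; omega
              · rintro (h | h | h)
                · split_ifs at h
                  · omega
                  · right; right; omega
                · right; left; omega
                · omega
            · rw [mem_womenJ_4 I b3]
              constructor
              · rintro (h | h | h)
                · omega
                · omega
                · rw [if_neg (by omega)]; omega
              · intro h
                split_ifs at h
                · omega
                · right; right; omega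
      · rw [mem_menJ_4 I a3]
        have hi2 : i = 2 * NN I := by omega
        rcases lt_or_ge j I.nw with b1 | b1
        · rw [mem_womenJ_1 I b1]
          have hB : i ∉ I.women j := fun h => by have := I.women_lt j b1 i h; omega
          constructor
          · intro h; omega
          · rintro (h | h | h)
            · exact absurd h hB
            · omega
            · omega
        · rcases lt_or_ge j (NN I) with b2 | b2
          · rw [mem_womenJ_2 I b1 b2]
            have hB : ¬ (i - I.nm ∈ I.men (j - I.nw)) := fun h => by
              have := I.men_lt (j - I.nw) (by omega) _ h; omega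
            constructor
            · intro h; omega
            · rintro (h | h | h)
              · exact absurd h.2 hB
              · omega
              · omega
          · rcases lt_or_ge j (2 * NN I) with b3 | b3
            · rw [mem_womenJ_3 I b2 b3]
              constructor
              · intro h; left; rw [if_pos h]; exact hi2
              · rintro (h | h | h)
                · split_ifs at h with h'
                  · exact h'
                  · omega
                · omega
                · omega
            · rw [mem_womenJ_4 I b3]
              constructor
              · intro h; rw [if_pos h]; exact hi2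
              · intro h
                split_ifs at h with h'
                · exact h'
                · omega

/-- the instance `J` -/
def JJ : SMI where
  nm := 2 * NN I + 1
  nw := 2 * NN I + 1
  men := menJ I
  women := womenJ I
  men_lt := by
    intro i hi j hj
    have hN : NN I = I.nm + I.nw := rfl
    rcases lt_or_ge i I.nm with a1 | a1
    · rw [mem_menJ_1 I a1] at hj
      rcases hj with h | h | h
      · omega
      · have := I.men_lt i a1 j h; omega
      · omega
    · rcases lt_or_ge i (NN I) with a2 | a2
      · rw [mem_menJ_2 I a1 a2] at hj
        rcases hj with h | h | h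
        · omega
        · have := I.women_lt (i - I.nm) (by omega) _ h.2; omega
        · omega
      · rcases lt_or_ge i (2 * NN I) with a3 | a3
        · rw [mem_menJ_3 I a2 a3] at hj; omega
        · rw [mem_menJ_4 I a3] at hj; omega
  women_lt := by
    intro j hj i hi
    have hN : NN I = I.nm + I.nw := rfl
    rcases lt_or_ge j I.nw with b1 | b1
    · rw [mem_womenJ_1 I b1] at hi
      rcases hi with h | h | h
      · have := I.women_lt j b1 i h; omega
      · omega
      · omega
    · rcases lt_or_ge j (NN I) with b2 | b2
      · rw [mem_womenJ_2 I b1 b2] at hi
        rcases hi with h | h | h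
        · have := I.men_lt (j - I.nw) (by omega) _ h.2; omega
        · omega
        · omega
      · rcases lt_or_ge j (2 * NN I) with b3 | b3
        · rw [mem_womenJ_3 I b2 b3] at hi
          rcases hi with h | h | h
          · split_ifs at h <;> omega
          · omega
          · omega
        · rw [mem_womenJ_4 I b3] at hi
          split_ifs at hi <;> omega
  men_nodup := by
    intro i hi
    have hN : NN I = I.nm + I.nw := rfl
    rcases lt_or_ge i I.nm with a1 | a1
    · rw [menJ_1 I a1, List.nodup_cons]
      constructor
      · simp only [List.mem_append, List.mem_singleton, not_or]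
        exact ⟨fun h => by have := I.men_lt i a1 _ h; omega, by omega⟩
      · rw [List.nodup_append]
        refine ⟨I.men_nodup i a1, List.nodup_singleton _, ?_⟩
        intro a ha b hb
        rw [List.mem_singleton] at hb
        have := I.men_lt i a1 _ ha
        omega
    · rcases lt_or_ge i (NN I) with a2 | a2
      · rw [menJ_2 I a1 a2, List.nodup_cons]
        have hx : i - I.nm < I.nw := by omega
        constructor
        · simp only [List.mem_append, List.mem_singleton, List.mem_map, not_or]
          refine ⟨?_, by omega⟩
          rintro ⟨a, ha, h⟩
          have := I.women_lt _ hx a ha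
          omega
        · rw [List.nodup_append]
          refine ⟨(I.women_nodup _ hx).map (fun a b h => by simpa using h),
            List.nodup_singleton _, ?_⟩
          intro a ha b hb
          rw [List.mem_singleton] at hb
          rw [List.mem_map] at ha
          obtain ⟨x, _, rfl⟩ := ha
          omega
      · rcases lt_or_ge i (2 * NN I) with a3 | a3
        · rw [menJ_3 I a2 a3]
          simp only [List.nodup_cons, List.mem_cons, List.not_mem_nil, or_false, not_or,
            List.nodup_nil, and_true, not_false_eq_true]
          omega
        · rw [menJ_4 I a3]; exact List.nodup_singleton _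
  women_nodup := by
    intro j hj
    have hN : NN I = I.nm + I.nw := rfl
    rcases lt_or_ge j I.nw with b1 | b1
    · rw [womenJ_1 I b1, List.nodup_append]
      refine ⟨I.women_nodup j b1, ?_, ?_⟩
      · simp only [List.nodup_cons, List.mem_cons, List.not_mem_nil, or_false,
            List.nodup_nil, and_true, not_false_eq_true]
        omega
      · intro a ha b hb
        have := I.women_lt j b1 _ ha
        simp only [List.mem_cons, List.not_mem_nil, or_false] at hb
        omega
    · rcases lt_or_ge j (NN I) with b2 | b2
      · have hx : j - I.nw < I.nm := by omega
        rw [womenJ_2 I b1 b2, List.nodup_append]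
        refine ⟨(I.men_nodup _ hx).map (fun a b h => by simpa using h), ?_, ?_⟩
        · simp only [List.nodup_cons, List.mem_cons, List.not_mem_nil, or_false,
            List.nodup_nil, and_true, not_false_eq_true]
          omega
        · intro a ha b hb
          rw [List.mem_map] at ha
          obtain ⟨x, hx', rfl⟩ := ha
          have := I.men_lt _ hx _ hx'
          simp only [List.mem_cons, List.not_mem_nil, or_false] at hb
          omega
      · rcases lt_or_ge j (2 * NN I) with b3 | b3
        · rw [womenJ_3 I b2 b3]
          simp only [List.nodup_cons, List.mem_cons, List.not_mem_nil, or_false, not_or,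
            List.nodup_nil, and_true, not_false_eq_true]
          split_ifs with h
          · omega
          · omega
        · rw [womenJ_4 I b3]; exact List.nodup_singleton _
  both := fun _ hi _ hj => bothJ I hi hj

end Pool.Agent.Helper65.OBP
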