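import Pool.Agent.Helper65.OBP.Pref

/-!
Stable matchings of `J` restrict to stable matchings of `I`.
-/

namespace Pool.Agent.Helper65.OBP

open Finset Pool.Agent.Helper91.SM Pool.Agent.Helper91.SM.SMI

variable {I : SMI} {M : ℕ → ℕ → Prop}

lemma st_mem (hM : (JJ I).Stable M) {i j : ℕ} (h : M i j) :
    i < 2 * NN I + 1 ∧ j < 2 * NN I + 1 ∧ j ∈ menJ I i := hM.1.1 i j h

lemma st_w (hM : (JJ I).Stable M) {i j j' : ℕ} (h : M i j) (h' : M i j') : j = j' :=
  hM.1.2.1 i j j' h h'

lemma st_m (hM : (JJ I).Stable M) {i i' j : ℕ} (h : M i j) (h' : M i' j) : i = i' :=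
  hM.1.2.2 i i' j h h'

lemma st_memw (hM : (JJ I).Stable M) {i j : ℕ} (h : M i j) : i ∈ womenJ I j := by
  obtain ⟨a, b, c⟩ := st_mem hM h
  exact (bothJ I a b).mp c

/-- the woman of a pair has a better partner if the man prefers her to his partner -/
lemma st_block (hM : (JJ I).Stable M) {i j : ℕ} (hi : i < 2 * NN I + 1) (hj : j < 2 * NN I + 1)
    (ha : j ∈ menJ I i) (hp : ∀ j', M i j' → Prefers (menJ I i) j j') :
    ∃ x, M x j ∧ x ≠ i ∧ x ∈ womenJ I j ∧ Prefers (womenJ I j) x i := by
  by_contra hcon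
  push Not at hcon
  have hn : ¬ M i j := fun h => pref_irr (hp j h) rfl
  have hiw : i ∈ womenJ I j := (bothJ I hi hj).mp ha
  refine hM.2 i j ⟨hi, hj, ha, hn, hp, fun x hx => ?_⟩
  show Prefers (womenJ I j) i x
  by_contra h
  have hne : i ≠ x := fun h' => hn (by rw [h']; exact hx)
  obtain ⟨h1, h2⟩ := pref_total hiw hne h
  exact hcon x hx hne.symm h1 h2

lemma st_m0 (hM : (JJ I).Stable M) : M (2 * NN I) (NN I) := by
  by_contra hcon
  have ha : NN I ∈ menJ I (2 * NN I) := by rw [menJ_4 I le_rfl]; simp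
  obtain ⟨x, hx, hne, hxw, hxp⟩ := st_block hM (i := 2 * NN I) (j := NN I) (by omega) (by omega) ha
    (by
      intro j' hj'
      have := (st_mem hM hj').2.2
      rw [menJ_4 I le_rfl, List.mem_singleton] at this
      rw [this] at hj'
      exact absurd hj' hcon)
  rcases Nat.eq_zero_or_pos (NN I) with h0 | h0
  · rw [womenJ_4 I (by omega)] at hxw
    rw [if_pos rfl, List.mem_singleton] at hxw
    exact hne hxw
  · rw [womenJ_3 I le_rfl (by omega), if_pos rfl] at hxp
    unfold Prefers at hxp
    rw [List.idxOf_cons_self] at hxp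
    omega

/-- every released real man is matched with one of the women `< N` -/
lemma released_real (hM : (JJ I).Stable M) {k : ℕ} (hk : k < I.nm) (hr : ¬ M k (NN I + k)) :
    ∃ l < NN I, M k l := by
  classical
  by_contra hcon
  push Not at hcon
  have hN : NN I = I.nm + I.nw := rfl
  have hun : ∀ j', ¬ M k j' := by
    intro j' hj'
    have h1 := (st_mem hM hj').2.2
    rw [mem_menJ_1 I hk] at h1
    rcases h1 with h | h | h
    · exact hr (by rw [← h]; exact hj')
    · exact hcon j' (by have := I.men_lt k hk j' h; omega) hj'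
    · exact hcon j' (by omega) hj'
  let S : Finset ℕ := (range I.nm).filter (fun i => ∃ j < I.nw, j ∈ I.men i ∧
    M (I.nm + j) (I.nw + i) ∧ ∀ j', M i j' → Prefers (menJ I i) j j')
  refine fin_inj S (fun i i' => ∃ j, M (I.nm + j) (I.nw + i) ∧ M i' j) ?_ ?_ k ?_ ?_
  · intro i hi
    rw [Finset.mem_filter, Finset.mem_range] at hi
    obtain ⟨hin, j, hj, hji, hμ, hp⟩ := hi
    have hij : i ∈ I.women j := (I.both i hin j hj).mp hji
    obtain ⟨i', h1, h2, h3, h4⟩ := st_block hM (i := i) (j := j) (by omega) (by omega)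
      ((mem_menJ_1 I hin).mpr (Or.inr (Or.inl hji))) hp
    have hi' : i' ∈ I.women j := by
      by_contra hn
      have := w1_mix I hj hij hn
      unfold Prefers at h4 this
      omega
    have hi'n : i' < I.nm := I.women_lt j hj i' hi'
    have hpr : Prefers (I.women j) i' i := (w1_pref I hj hi' hij).mp h4
    have hji' : j ∈ I.men i' := (I.both i' hi'n j hj).mpr hi'
    obtain ⟨x, h5, h6, h7, h8⟩ := st_block hM (i := I.nm + j) (j := I.nw + i') (by omega)
      (by omega) ((mem_menJ_2 I (by omega) (by omega)).mpr (Or.inr (Or.inl ⟨by omega, by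
        rw [Nat.add_sub_cancel_left, Nat.add_sub_cancel_left]; exact hi'⟩)))
      (by
        intro j' hj'
        have := st_w hM hμ hj'
        rw [← this, m2_pref I (by omega) (by omega) (by rw [Nat.add_sub_cancel_left]; exact hi')
          (by rw [Nat.add_sub_cancel_left]; exact hij), Nat.add_sub_cancel_left]
        exact hpr)
    have hjm : j ∈ I.men (I.nw + i' - I.nw) := by rw [Nat.add_sub_cancel_left]; exact hji'
    have hx : ∃ z ∈ I.men (I.nw + i' - I.nw), x = I.nm + z := by
      by_contra hn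
      push Not at hn
      have := w2_mix I (j := I.nw + i') (by omega) (by omega) hjm hn
      unfold Prefers at h8 this
      omega
    obtain ⟨z, hz, rfl⟩ := hx
    have hzj : Prefers (I.men i') z j := by
      have := (w2_pref I (j := I.nw + i') (by omega) (by omega) hz hjm).mp h8
      rwa [Nat.add_sub_cancel_left] at this
    rw [Nat.add_sub_cancel_left] at hz
    refine ⟨i', ?_, j, hμ, h1⟩
    rw [Finset.mem_filter, Finset.mem_range]
    refine ⟨hi'n, z, I.men_lt i' hi'n z hz, hz, h5, fun j' hj' => ?_⟩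
    rw [← st_w hM h1 hj']
    exact (m1_pref I hi'n hz hji').mpr hzj
  · rintro x x' y ⟨j, h1, h2⟩ ⟨j', h3, h4⟩
    have : j = j' := st_w hM h2 h4
    subst this
    have := st_w hM h1 h3
    omega
  · rw [Finset.mem_filter, Finset.mem_range]
    obtain ⟨x, h1, h2, h3, h4⟩ := st_block hM (i := k) (j := I.nw + k) (by omega) (by omega)
      ((mem_menJ_1 I hk).mpr (Or.inr (Or.inr rfl))) (fun j' hj' => absurd hj' (hun j'))
    rw [mem_womenJ_2 I (by omega) (by omega)] at h3
    rw [Nat.add_sub_cancel_left] at h3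
    rcases h3 with h | h | h
    · have hj : x - I.nm ∈ I.men k := h.2
      have hx : I.nm + (x - I.nm) = x := by omega
      refine ⟨hk, x - I.nm, I.men_lt k hk _ hj, hj, by rw [hx]; exact h1, fun j' hj' =>
        absurd hj' (hun j')⟩
    · exact absurd h h2
    · have := w2_two I (j := I.nw + k) (by omega) (by omega)
      rw [Nat.add_sub_cancel_left, ← h] at this
      unfold Prefers at h4 this
      omega
  · rintro x _ ⟨j, _, h⟩
    exact hun j h

/-- every released man of the mirror part is matched with one of the women `< N` -/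
lemma released_mirror (hM : (JJ I).Stable M) {k : ℕ} (hk1 : I.nm ≤ k) (hk : k < NN I)
    (hr : ¬ M k (NN I + k)) : ∃ l < NN I, M k l := by
  classical
  by_contra hcon
  push Not at hcon
  have hN : NN I = I.nm + I.nw := rfl
  obtain ⟨j0, rfl⟩ : ∃ j0, k = I.nm + j0 := ⟨k - I.nm, by omega⟩
  have hj0 : j0 < I.nw := by omega
  have hun : ∀ j', ¬ M (I.nm + j0) j' := by
    intro j' hj'
    have h1 := (st_mem hM hj').2.2
    rw [mem_menJ_2 I hk1 hk, Nat.add_sub_cancel_left] at h1
    rcases h1 with h | h | h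
    · exact hr (by rw [← h]; exact hj')
    · exact hcon j' (by have := I.women_lt j0 hj0 _ h.2; omega) hj'
    · exact hcon j' (by omega) hj'
  let S : Finset ℕ := (range I.nw).filter (fun j => ∃ i < I.nm, i ∈ I.women j ∧
    M i j ∧ ∀ l, M (I.nm + j) l → Prefers (menJ I (I.nm + j)) (I.nw + i) l)
  refine fin_inj S (fun j j' => ∃ i, M i j ∧ M (I.nm + j') (I.nw + i)) ?_ ?_ j0 ?_ ?_
  · intro j hj
    rw [Finset.mem_filter, Finset.mem_range] at hj
    obtain ⟨hjn, i, hi, hij, hμ, hp⟩ := hj
    have hji : j ∈ I.men i := (I.both i hi j hjn).mpr hij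
    obtain ⟨x, h1, h2, h3, h4⟩ := st_block hM (i := I.nm + j) (j := I.nw + i) (by omega) (by omega)
      ((mem_menJ_2 I (by omega) (by omega)).mpr (Or.inr (Or.inl ⟨by omega, by
        rw [Nat.add_sub_cancel_left, Nat.add_sub_cancel_left]; exact hij⟩))) hp
    have hjm : j ∈ I.men (I.nw + i - I.nw) := by rw [Nat.add_sub_cancel_left]; exact hji
    have hx : ∃ z ∈ I.men (I.nw + i - I.nw), x = I.nm + z := by
      by_contra hn
      push Not at hn
      have := w2_mix I (j := I.nw + i) (by omega) (by omega) hjm hn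
      unfold Prefers at h4 this
      omega
    obtain ⟨z, hz, rfl⟩ := hx
    have hzj : Prefers (I.men i) z j := by
      have := (w2_pref I (j := I.nw + i) (by omega) (by omega) hz hjm).mp h4
      rwa [Nat.add_sub_cancel_left] at this
    rw [Nat.add_sub_cancel_left] at hz
    have hzn : z < I.nw := I.men_lt i hi z hz
    have hiz : i ∈ I.women z := (I.both i hi z hzn).mp hz
    obtain ⟨i', h5, h6, h7, h8⟩ := st_block hM (i := i) (j := z) (by omega) (by omega)
      ((mem_menJ_1 I hi).mpr (Or.inr (Or.inl hz)))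
      (by
        intro j' hj'
        rw [← st_w hM hμ hj']
        exact (m1_pref I hi hz hji).mpr hzj)
    have hi' : i' ∈ I.women z := by
      by_contra hn
      have := w1_mix I hzn hiz hn
      unfold Prefers at h8 this
      omega
    have hi'n : i' < I.nm := I.women_lt z hzn i' hi'
    have hpr : Prefers (I.women z) i' i := (w1_pref I hzn hi' hiz).mp h8
    refine ⟨z, ?_, i, hμ, h1⟩
    rw [Finset.mem_filter, Finset.mem_range]
    refine ⟨hzn, i', hi'n, hi', h5, fun l hl => ?_⟩
    rw [← st_w hM h1 hl, m2_pref I (by omega) (by omega)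
      (by rw [Nat.add_sub_cancel_left]; exact hi') (by rw [Nat.add_sub_cancel_left]; exact hiz),
      Nat.add_sub_cancel_left]
    exact hpr
  · rintro x x' y ⟨j, h1, h2⟩ ⟨j', h3, h4⟩
    have : I.nw + j = I.nw + j' := st_w hM h2 h4
    have : j = j' := by omega
    subst this
    exact st_w hM h1 h3
  · rw [Finset.mem_filter, Finset.mem_range]
    obtain ⟨x, h1, h2, h3, h4⟩ := st_block hM (i := I.nm + j0) (j := j0) (by omega) (by omega)
      ((mem_menJ_2 I (by omega) (by omega)).mpr (Or.inr (Or.inr (by omega))))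
      (fun j' hj' => absurd hj' (hun j'))
    rw [mem_womenJ_1 I hj0] at h3
    rcases h3 with h | h | h
    · refine ⟨hj0, x, I.women_lt j0 hj0 _ h, h, h1, fun j' hj' => absurd hj' (hun j')⟩
    · exact absurd h h2
    · have := w1_two I hj0
      rw [← h] at this
      unfold Prefers at h4 this
      omega
  · rintro x _ ⟨i, _, h⟩
    exact hun _ h

lemma released (hM : (JJ I).Stable M) {k : ℕ} (hk : k < NN I) (hr : ¬ M k (NN I + k)) :
    ∃ l < NN I, M k l := by
  rcases lt_or_ge k I.nm with h | h
  · exact released_real hM h hr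
  · exact released_mirror hM h hk hr

/-- a displaced dummy man moves to one of the next two women -/
lemma displaced (hM : (JJ I).Stable M) {l : ℕ} (hl : l < NN I) {k : ℕ} (hk : k < NN I)
    (h : M k l) : M (NN I + l) (NN I + l) ∨ M (NN I + l) (NN I + l + 1) := by
  by_contra hcon
  push Not at hcon
  obtain ⟨x, h1, h2, h3, h4⟩ := st_block hM (i := NN I + l) (j := NN I + l + 1) (by omega)
    (by omega) ((mem_menJ_3 I (by omega) (by omega)).mpr (Or.inr (Or.inr rfl)))
    (by
      intro j' hj'
      exfalso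
      have h5 := (st_mem hM hj').2.2
      rw [mem_menJ_3 I (by omega) (by omega)] at h5
      rcases h5 with h5 | h5 | h5
      · rw [Nat.add_sub_cancel_left] at h5
        rw [h5] at hj'
        have := st_m hM h hj'
        omega
      · rw [h5] at hj'; exact hcon.1 hj'
      · rw [h5] at hj'; exact hcon.2 hj')
  rcases lt_or_ge (NN I + l + 1) (2 * NN I) with h6 | h6
  · rw [womenJ_3 I (by omega) h6, if_neg (by omega), Nat.add_sub_cancel] at h4
    unfold Prefers at h4
    rw [List.idxOf_cons_self] at h4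
    omega
  · rw [womenJ_4 I h6, if_neg (by omega), Nat.add_sub_cancel] at h4
    unfold Prefers at h4
    rw [List.idxOf_cons_self] at h4
    omega

lemma last_used (hM : (JJ I).Stable M) (h0 : 0 < NN I) :
    M (NN I + (NN I - 1)) (NN I + (NN I - 1) + 1) := by
  classical
  by_contra hcon
  have hm0 := st_m0 hM
  let S : Finset ℕ := (range (NN I)).filter (fun k => ¬ M k (NN I + k))
  have hkey : ∀ k ∈ S, ∃ l < NN I, ∃ j, M k l ∧ M (NN I + l) (NN I + j) ∧ 1 ≤ j ∧ j < NN I := by
    intro k hk
    rw [Finset.mem_filter, Finset.mem_range] at hk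
    obtain ⟨l, hl, hkl⟩ := released hM hk.1 hk.2
    rcases displaced hM hl hk.1 hkl with h | h
    · refine ⟨l, hl, l, hkl, h, ?_, hl⟩
      rcases Nat.eq_zero_or_pos l with h1 | h1
      · rw [h1, Nat.add_zero] at h
        have := st_m hM hm0 h
        omega
      · exact h1
    · refine ⟨l, hl, l + 1, hkl, h, by omega, ?_⟩
      rcases Nat.lt_or_ge (l + 1) (NN I) with h1 | h1
      · exact h1
      · have h2 : l = NN I - 1 := by omega
        rw [h2] at h
        exact absurd h hcon
  refine fin_inj S (fun k j => ∃ l < NN I, M k l ∧ M (NN I + l) (NN I + j) ∧ 1 ≤ j) ?_ ?_ 0 ?_ ?_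
  · intro k hk
    obtain ⟨l, hl, j, h1, h2, h3, h4⟩ := hkey k hk
    refine ⟨j, ?_, l, hl, h1, h2, h3⟩
    rw [Finset.mem_filter, Finset.mem_range]
    refine ⟨h4, fun h5 => ?_⟩
    have := st_m hM h2 h5
    omega
  · rintro k k' j ⟨l, _, h1, h2, _⟩ ⟨l', _, h3, h4, _⟩
    have := st_m hM h2 h4
    have : l = l' := by omega
    subst this
    exact st_m hM h1 h3
  · rw [Finset.mem_filter, Finset.mem_range]
    refine ⟨h0, fun h => ?_⟩
    rw [Nat.add_zero] at h
    have := st_m hM hm0 h
    omega
  · rintro k _ ⟨_, _, _, _, h⟩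
    omega

lemma chain (hM : (JJ I).Stable M) (t : ℕ) : ∀ s, s + t + 1 = NN I →
    M (NN I + s) (NN I + s + 1) := by
  induction t with
  | zero =>
    intro s hs
    have h := last_used hM (by omega)
    have : NN I - 1 = s := by omega
    rwa [this] at h
  | succ t ih =>
    intro s hs
    have h := ih (s + 1) (by omega)
    obtain ⟨x, h1, h2, h3, h4⟩ := st_block hM (i := NN I + (s + 1)) (j := NN I + (s + 1))
      (by omega) (by omega) ((mem_menJ_3 I (by omega) (by omega)).mpr (Or.inr (Or.inl rfl)))
      (by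
        intro j' hj'
        rw [← st_w hM h hj', menJ_3 I (by omega) (by omega)]
        rw [pref_cons _ (by omega) (by omega)]
        exact pref_head _ (by omega))
    rw [womenJ_3 I (by omega) (by omega), if_neg (by omega)] at h3 h4
    have hx : x = NN I + (s + 1) - 1 := by
      simp only [List.mem_cons, List.not_mem_nil, or_false] at h3
      rcases h3 with h3 | h3 | h3
      · exact h3
      · exact absurd h3 h2
      · exfalso
        rw [h3] at h4
        rw [pref_cons _ (by omega) (by omega)] at h4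
        unfold Prefers at h4
        rw [List.idxOf_cons_self] at h4
        omega
    rw [hx] at h1
    have e1 : NN I + (s + 1) - 1 = NN I + s := by omega
    have e2 : NN I + (s + 1) = NN I + s + 1 := by omega
    rw [e1, e2] at h1
    exact h1

/-- all men are released -/
lemma all_released (hM : (JJ I).Stable M) {k : ℕ} (hk : k < NN I) : ¬ M k (NN I + k) := by
  intro h
  rcases Nat.eq_zero_or_pos k with h0 | h0
  · rw [h0, Nat.add_zero] at h
    have := st_m hM (st_m0 hM) h
    omega
  · have h1 := chain hM (NN I - k) (k - 1) (by omega)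
    have e : NN I + (k - 1) + 1 = NN I + k := by omega
    rw [e] at h1
    have := st_m hM h h1
    omega

/-- stable matchings of `J` restrict to stable matchings of `I` -/
theorem restrict (hM : (JJ I).Stable M) :
    I.Stable (fun i j => (i < I.nm ∧ j < I.nw) ∧ M i j) := by
  have hN : NN I = I.nm + I.nw := rfl
  constructor
  · refine ⟨?_, ?_, ?_⟩
    · rintro i j ⟨⟨hi, hj⟩, h⟩
      refine ⟨hi, hj, ?_⟩
      have h1 := (st_mem hM h).2.2
      rw [mem_menJ_1 I hi] at h1
      rcases h1 with h1 | h1 | h1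
      · omega
      · exact h1
      · omega
    · rintro i j j' ⟨_, h⟩ ⟨_, h'⟩
      exact st_w hM h h'
    · rintro i i' j ⟨_, h⟩ ⟨_, h'⟩
      exact st_m hM h h'
  · rintro i j ⟨hi, hj, ha, hn, hp, hq⟩
    have hn' : ¬ M i j := fun h => hn ⟨⟨hi, hj⟩, h⟩
    have hiw : i ∈ I.women j := (I.both i hi j hj).mp ha
    refine hM.2 i j ⟨by show i < 2 * NN I + 1; omega, by show j < 2 * NN I + 1; omega,
      (mem_menJ_1 I hi).mpr (Or.inr (Or.inl ha)), hn', ?_, ?_⟩
    · intro j' hj'
      show Prefers (menJ I i) j j'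
      have h1 := (st_mem hM hj').2.2
      rw [mem_menJ_1 I hi] at h1
      rcases h1 with h1 | h1 | h1
      · exfalso
        rw [h1] at hj'
        exact all_released hM (by omega) hj'
      · exact (m1_pref I hi ha h1).mpr (hp j' ⟨⟨hi, I.men_lt i hi j' h1⟩, hj'⟩)
      · rw [h1]; exact m1_last I hi ha
    · intro i' hi'
      show Prefers (womenJ I j) i i'
      by_cases h2 : i' ∈ I.women j
      · exact (w1_pref I hj hiw h2).mpr (hq i' ⟨⟨I.women_lt j hj i' h2, hj⟩, hi'⟩)
      · exact w1_mix I hj hiw h2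

end Pool.Agent.Helper65.OBP
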