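import Pool.Agent.Helper65.OBP.Main

/-!
The matching of `J` has exactly one blocking pair; the size of `J`.
-/

namespace Pool.Agent.Helper65.OBP

open Finset Pool.Agent.Helper91.SM Pool.Agent.Helper91.SM.SMI

variable (I : SMI)

lemma fJ_1 {i : ℕ} (h : i < NN I) : fJ I i = ((NN I + i : ℕ) : ℤ) + 1 := by
  unfold fJ; rw [if_pos h]

lemma fJ_2 {i : ℕ} (h1 : NN I ≤ i) (h2 : i < 2 * NN I) : fJ I i = ((i - NN I : ℕ) : ℤ) + 1 := by
  unfold fJ; rw [if_neg (by omega), if_pos h2]

lemma fJ_3 {i : ℕ} (h1 : 2 * NN I ≤ i) : fJ I i = 0 := by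
  unfold fJ; rw [if_neg (by omega), if_neg (by omega)]

/-- the pairs of the matching of `J` -/
lemma pairsJ (i j : ℕ) : Pairs (JJ I) (fJ I) i j ↔
    (i < NN I ∧ j = NN I + i) ∨ (NN I ≤ i ∧ i < 2 * NN I ∧ j = i - NN I) := by
  have hnm : (JJ I).nm = 2 * NN I + 1 := rfl
  unfold Pairs
  rw [hnm]
  rcases lt_or_ge i (NN I) with h | h
  · rw [fJ_1 I h]; omega
  · rcases lt_or_ge i (2 * NN I) with h2 | h2
    · rw [fJ_2 I h h2]; omega
    · rw [fJ_3 I h2]; omega

lemma head_men {i : ℕ} (h : i < 2 * NN I) : ∃ l, menJ I i =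
    (if i < NN I then NN I + i else i - NN I) :: l := by
  have hN : NN I = I.nm + I.nw := rfl
  rcases lt_or_ge i (NN I) with h1 | h1
  · rw [if_pos h1]
    rcases lt_or_ge i I.nm with h3 | h3
    · exact ⟨_, menJ_1 I h3⟩
    · exact ⟨_, menJ_2 I h3 h1⟩
  · rw [if_neg (by omega)]
    exact ⟨_, menJ_3 I h1 h⟩

theorem oneBlock : OneBlock (JJ I) (fJ I) := by
  have hnm : (JJ I).nm = 2 * NN I + 1 := rfl
  have hnw : (JJ I).nw = 2 * NN I + 1 := rfl
  have hmen : (JJ I).men = menJ I := rfl
  have hwom : (JJ I).women = womenJ I := rfl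
  refine ⟨⟨?_, ?_, ?_⟩, 2 * NN I, NN I, ?_, menJ_4 I le_rfl⟩
  · intro i j h
    rw [pairsJ] at h
    rw [hnm, hnw, hmen]
    refine ⟨by omega, by omega, ?_⟩
    obtain ⟨l, hl⟩ := head_men I (i := i) (by omega)
    rw [hl, List.mem_cons]
    left
    rcases h with h | h
    · rw [if_pos h.1]; exact h.2
    · rw [if_neg (by omega)]; exact h.2.2
  · intro i j j' h h'
    rw [pairsJ] at h h'; omega
  · intro i i' j h h'
    rw [pairsJ] at h h'; omega
  · intro i' j'
    constructor
    · rintro ⟨h1, h2, h3, h4, h5, h6⟩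
      rw [hnm] at h1
      rw [hmen] at h3 h5
      rcases lt_or_ge i' (2 * NN I) with h | h
      · exfalso
        obtain ⟨l, hl⟩ := head_men I h
        have h7 := h5 (if i' < NN I then NN I + i' else i' - NN I) (by
          rw [pairsJ]
          split_ifs with h8
          · left; exact ⟨h8, rfl⟩
          · right; exact ⟨by omega, h, rfl⟩)
        rw [hl] at h7
        unfold Prefers at h7
        rw [List.idxOf_cons_self] at h7
        omega
      · have : i' = 2 * NN I := by omega
        subst this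
        rw [menJ_4 I le_rfl, List.mem_singleton] at h3
        exact ⟨rfl, h3⟩
    · rintro ⟨rfl, rfl⟩
      refine ⟨by omega, by omega, ?_, ?_, ?_, ?_⟩
      · rw [hmen, menJ_4 I le_rfl]; simp
      · rw [pairsJ]; omega
      · intro j' h
        rw [pairsJ] at h; omega
      · intro i' h
        rw [pairsJ] at h
        rw [hwom, womenJ_3 I le_rfl (by omega), if_pos rfl]
        unfold Prefers
        rw [List.idxOf_cons_self, List.idxOf_cons_ne _ (by omega)]
        omega

/-! ### size -/

lemma len_menJ_1 {i : ℕ} (h : i < I.nm) : (menJ I i).length = (I.men i).length + 2 := by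
  rw [menJ_1 I h]; simp

lemma len_menJ_2 {i : ℕ} (h1 : I.nm ≤ i) (h2 : i < NN I) :
    (menJ I i).length = (I.women (i - I.nm)).length + 2 := by
  rw [menJ_2 I h1 h2]; simp

lemma len_womenJ_1 {j : ℕ} (h : j < I.nw) : (womenJ I j).length = (I.women j).length + 2 := by
  rw [womenJ_1 I h]; simp

lemma len_womenJ_2 {j : ℕ} (h1 : I.nw ≤ j) (h2 : j < NN I) :
    (womenJ I j).length = (I.men (j - I.nw)).length + 2 := by
  rw [womenJ_2 I h1 h2]; simp

/-- total lengths -/
def tm (I : SMI) : ℕ := ∑ i ∈ range I.nm, (I.men i).length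
def tw (I : SMI) : ℕ := ∑ j ∈ range I.nw, (I.women j).length

lemma size_eq : I.size = tm I + tw I + NN I := by
  unfold SMI.size tm tw NN
  rw [Finset.sum_add_distrib, Finset.sum_add_distrib]
  simp; ring

lemma sizeJ : (JJ I).size = 2 * (tm I + tw I) + 14 * NN I + 4 := by
  have hN : NN I = I.nm + I.nw := rfl
  have hnm : (JJ I).nm = I.nm + I.nw + NN I + 1 := by
    show 2 * NN I + 1 = _
    omega
  have hnw : (JJ I).nw = I.nw + I.nm + NN I + 1 := by
    show 2 * NN I + 1 = _
    omega
  have hmen : (JJ I).men = menJ I := rfl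
  have hwom : (JJ I).women = womenJ I := rfl
  unfold SMI.size
  rw [hnm, hnw, hmen, hwom]
  rw [Finset.sum_range_succ, Finset.sum_range_add, Finset.sum_range_add,
    Finset.sum_range_succ, Finset.sum_range_add, Finset.sum_range_add]
  have a1 : ∑ x ∈ range I.nm, ((menJ I x).length + 1) = tm I + 3 * I.nm := by
    unfold tm
    rw [Finset.sum_congr rfl (fun x hx => by rw [len_menJ_1 I (Finset.mem_range.mp hx)]),
      Finset.sum_add_distrib, Finset.sum_add_distrib]
    simp; ring
  have a2 : ∑ x ∈ range I.nw, ((menJ I (I.nm + x)).length + 1) = tw I + 3 * I.nw := by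
    unfold tw
    rw [Finset.sum_congr rfl (fun x hx => by
      have := Finset.mem_range.mp hx
      rw [len_menJ_2 I (by omega) (by omega), Nat.add_sub_cancel_left]),
      Finset.sum_add_distrib, Finset.sum_add_distrib]
    simp; ring
  have a3 : ∑ x ∈ range (NN I), ((menJ I (I.nm + I.nw + x)).length + 1) = 4 * NN I := by
    rw [Finset.sum_congr rfl (g := fun _ => 4) (fun x hx => by
      have := Finset.mem_range.mp hx
      rw [menJ_3 I (by omega) (by omega)]; rfl)]
    simp; ring
  have b1 : ∑ x ∈ range I.nw, ((womenJ I x).length + 1) = tw I + 3 * I.nw := by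
    unfold tw
    rw [Finset.sum_congr rfl (fun x hx => by rw [len_womenJ_1 I (Finset.mem_range.mp hx)]),
      Finset.sum_add_distrib, Finset.sum_add_distrib]
    simp; ring
  have b2 : ∑ x ∈ range I.nm, ((womenJ I (I.nw + x)).length + 1) = tm I + 3 * I.nm := by
    unfold tm
    rw [Finset.sum_congr rfl (fun x hx => by
      have := Finset.mem_range.mp hx
      rw [len_womenJ_2 I (by omega) (by omega), Nat.add_sub_cancel_left]),
      Finset.sum_add_distrib, Finset.sum_add_distrib]
    simp; ring
  have b3 : ∑ x ∈ range (NN I), ((womenJ I (I.nw + I.nm + x)).length + 1) = 4 * NN I := by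
    rw [Finset.sum_congr rfl (g := fun _ => 4) (fun x hx => by
      have := Finset.mem_range.mp hx
      rw [womenJ_3 I (by omega) (by omega)]; rfl)]
    simp; ring
  rw [a1, a2, a3, b1, b2, b3, menJ_4 I (by omega), womenJ_4 I (by omega)]
  simp only [List.length_cons, List.length_nil]
  omega

lemma sizeJ_le : (JJ I).size ≤ 14 * I.size + 4 := by
  rw [sizeJ, size_eq]; omega

/-- the instance with one man and one woman -/
def I1 : SMI where
  nm := 1
  nw := 1
  men := fun _ => [0]
  women := fun _ => [0]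
  men_lt := by intro i _ j hj; simp at hj; omega
  women_lt := by intro i _ j hj; simp at hj; omega
  men_nodup := by intro i _; simp
  women_nodup := by intro i _; simp
  both := by intro i hi j hj; simp; omega

lemma blocks_I1 (M : ℕ → ℕ → Prop) (hM : ∀ i j, ¬ M i j) (i j : ℕ) :
    I1.Blocks M i j ↔ i = 0 ∧ j = 0 := by
  constructor
  · rintro ⟨h1, h2, _⟩
    have h3 : i < 1 := h1
    have h4 : j < 1 := h2
    omega
  · rintro ⟨rfl, rfl⟩
    exact ⟨Nat.one_pos, Nat.one_pos, by simp [I1], hM _ _, fun j' h => absurd h (hM _ _),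
      fun i' h => absurd h (hM _ _)⟩

lemma oneBlock_I1 : OneBlock I1 (fun _ => 0) := by
  have h : ∀ i j, ¬ Pairs I1 (fun _ => 0) i j := by
    rintro i j ⟨_, h⟩
    have h' : (0 : ℤ) = (j : ℤ) + 1 := h
    omega
  refine ⟨⟨fun i j h' => absurd h' (h i j), fun i j j' h' => absurd h' (h i j),
    fun i i' j h' => absurd h' (h i j)⟩, 0, 0, fun i' j' => blocks_I1 _ h i' j', rfl⟩

lemma store_one (z : ℤ) : store 1 z = 0 := by
  unfold store
  split_ifs with h
  · have h' : |z| < 1 := by exact_mod_cast h
    exact Int.abs_lt_one_iff.mp h'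
  · rfl

lemma exec_one (P : Prog) : ∀ (m : Mem) (r : ℕ), exec 1 P m r = m r ∨ exec 1 P m r = fun _ _ _ => 0 := by
  induction P with
  | assign r' t =>
    intro m r
    simp only [exec]
    by_cases h : r = r'
    · subst h
      right
      rw [Function.update_self]
      funext i j k
      split_ifs
      · exact store_one _
      · rfl
    · left; rw [Function.update_of_ne h]
  | seq p q ihp ihq =>
    intro m r
    simp only [exec]
    rcases ihq (exec 1 p m) r with h | h
    · rw [h]; exact ihp m r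
    · right; exact h
  | loop r' t p ih =>
    intro m r
    simp only [exec]
    generalize (eval 1 m t (env 0 0 0)).toNat = n
    induction n with
    | zero => left; rfl
    | succ n ihn =>
      show exec 1 p (setc 1 r' n (loopIter (fun i m' => exec 1 p (setc 1 r' i m')) n m)) r = m r ∨
        exec 1 p (setc 1 r' n (loopIter (fun i m' => exec 1 p (setc 1 r' i m')) n m)) r =
          fun _ _ _ => 0
      rcases ih (setc 1 r' n (loopIter (fun i m' => exec 1 p (setc 1 r' i m')) n m)) r with h | h
      · rw [h]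
        by_cases hr : r = r'
        · subst hr
          right
          rw [setc, Function.update_self]
          funext _ _ _
          exact store_one _
        · rw [setc, Function.update_of_ne hr]
          exact ihn
      · right; exact h

/-- the word bound `1` is too small -/
lemma c_ne_zero {P : Prog} {c : ℕ} {T : ℕ → ℕ} (h : SolvesOne P c T) : c ≠ 0 := by
  rintro rfl
  obtain ⟨⟨_, h1⟩, _⟩ := h I1 (fun _ => 0) oneBlock_I1
  rw [pow_zero] at h1
  refine h1 0 0 ((blocks_I1 _ ?_ 0 0).mpr ⟨rfl, rfl⟩)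
  rintro i j ⟨_, h2⟩
  have h3 : exec 1 P (encodeOne I1 (fun _ => 0)) 3 i 0 0 = 0 := by
    rcases exec_one P (encodeOne I1 (fun _ => 0)) 3 with h | h
    · rw [h]; unfold encodeOne; rw [Function.update_self]; simp
    · rw [h]
  rw [h3] at h2
  omega

end Pool.Agent.Helper65.OBP
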