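import Pool.Agent.Helper65.OBP.Defs

/-!
Simulation of a program with a smaller word bound.
-/

namespace Pool.Agent.Helper65.OBP

open Finset Pool.Agent.Helper91.SM Pool.Agent.Helper91.SM.Term

section
variable (q : ℕ)

/-- Translation of terms: array `q` holds the small word bound, the entries `0, 1, 2` of array
`q + 1 + r` tell which indices of array `r` matter. -/
def cT : Term → Term
  | .const c => .const c
  | .var v => .var v
  | .get r i j k => .get r (.mul (g1 (q + 1 + r) (.const 0)) (cT i))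
      (.mul (g1 (q + 1 + r) (.const 1)) (cT j)) (.mul (g1 (q + 1 + r) (.const 2)) (cT k))
  | .add s t => .add (cT s) (cT t)
  | .sub s t => .sub (cT s) (cT t)
  | .mul s t => .mul (cT s) (cT t)
  | .div s t => .div (cT s) (cT t)
  | .lt s t => .lt (cT s) (cT t)
  | .sum v t => .sum v (.mul (.lt (.var v) (g0 q)) (cT t))

/-- the value of `t` if it fits into a word of the small machine, else zero -/
def gv (t : Term) : Term := .mul (.mul (.lt t (g0 q)) (.lt (.sub (.const 0) (g0 q)) t)) t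

/-- index in the range of the small machine -/
def gi : Term :=
  .mul (.mul (.lt (.var 0) (g0 q)) (.lt (.var 1) (g0 q))) (.lt (.var 2) (g0 q))

/-- translation of programs -/
def cP : Prog → Prog
  | .assign r t => .seq (.assign r (.mul (gi q) (gv q (cT q t)))) (.assign (q + 1 + r) (.const 1))
  | .seq p p' => .seq (cP p) (cP p')
  | .loop r t p => .loop r (cT q t)
      (.seq (.assign r (gv q (g0 r))) (.seq (.assign (q + 1 + r) (.const 0)) (cP p)))

/-- all arrays of the term are `< q` -/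
def TB : Term → Prop
  | .const _ => True
  | .var _ => True
  | .get r i j k => r < q ∧ TB i ∧ TB j ∧ TB k
  | .add s t => TB s ∧ TB t
  | .sub s t => TB s ∧ TB t
  | .mul s t => TB s ∧ TB t
  | .div s t => TB s ∧ TB t
  | .lt s t => TB s ∧ TB t
  | .sum _ t => TB t

def PB : Prog → Prop
  | .assign r t => r < q ∧ TB q t
  | .seq p p' => PB p ∧ PB p'
  | .loop r t p => r < q ∧ TB q t ∧ PB p

end

lemma TB_ex (t : Term) : ∃ q0, ∀ q, q0 ≤ q → TB q t := by
  induction t with
  | const c => exact ⟨0, fun _ _ => trivial⟩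
  | var v => exact ⟨0, fun _ _ => trivial⟩
  | get r i j k h1 h2 h3 =>
    obtain ⟨a, ha⟩ := h1
    obtain ⟨b, hb⟩ := h2
    obtain ⟨c, hc⟩ := h3
    exact ⟨r + 1 + a + b + c, fun q hq =>
      ⟨by omega, ha q (by omega), hb q (by omega), hc q (by omega)⟩⟩
  | add s t h1 h2 =>
    obtain ⟨a, ha⟩ := h1
    obtain ⟨b, hb⟩ := h2
    exact ⟨a + b, fun q hq => ⟨ha q (by omega), hb q (by omega)⟩⟩
  | sub s t h1 h2 =>
    obtain ⟨a, ha⟩ := h1
    obtain ⟨b, hb⟩ := h2
    exact ⟨a + b, fun q hq => ⟨ha q (by omega), hb q (by omega)⟩⟩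
  | mul s t h1 h2 =>
    obtain ⟨a, ha⟩ := h1
    obtain ⟨b, hb⟩ := h2
    exact ⟨a + b, fun q hq => ⟨ha q (by omega), hb q (by omega)⟩⟩
  | div s t h1 h2 =>
    obtain ⟨a, ha⟩ := h1
    obtain ⟨b, hb⟩ := h2
    exact ⟨a + b, fun q hq => ⟨ha q (by omega), hb q (by omega)⟩⟩
  | lt s t h1 h2 =>
    obtain ⟨a, ha⟩ := h1
    obtain ⟨b, hb⟩ := h2
    exact ⟨a + b, fun q hq => ⟨ha q (by omega), hb q (by omega)⟩⟩
  | sum v t h => exact h

lemma PB_ex (P : Prog) : ∃ q0, ∀ q, q0 ≤ q → PB q P := by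
  induction P with
  | assign r t =>
    obtain ⟨a, ha⟩ := TB_ex t
    exact ⟨r + 1 + a, fun q hq => ⟨by omega, ha q (by omega)⟩⟩
  | seq p p' h1 h2 =>
    obtain ⟨a, ha⟩ := h1
    obtain ⟨b, hb⟩ := h2
    exact ⟨a + b, fun q hq => ⟨ha q (by omega), hb q (by omega)⟩⟩
  | loop r t p h =>
    obtain ⟨a, ha⟩ := TB_ex t
    obtain ⟨b, hb⟩ := h
    exact ⟨r + 1 + a + b, fun q hq => ⟨by omega, ha q (by omega), hb q (by omega)⟩⟩

/-- relation between the memory `m` of the small machine and the memory `m'` -/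
structure Rel (q W₀ : ℕ) (m m' : Mem) : Prop where
  w : m' q 0 0 0 = W₀
  f : ∀ r < q, ∀ x < 3, m' (q + 1 + r) x 0 0 = 0 ∨ m' (q + 1 + r) x 0 0 = 1
  g : ∀ r < q, ∀ i j k : ℕ, m r i j k = m' r ((m' (q + 1 + r) 0 0 0).toNat * i)
    ((m' (q + 1 + r) 1 0 0).toNat * j) ((m' (q + 1 + r) 2 0 0).toNat * k)

lemma toNat_mul01 {a z : ℤ} (ha : a = 0 ∨ a = 1) : (a * z).toNat = a.toNat * z.toNat := by
  rcases ha with rfl | rfl <;> simp

variable {q W W₀ : ℕ}

lemma eval_cT (h0 : W₀ ≤ W) {m m' : Mem} (hR : Rel q W₀ m m') (t : Term) (ht : TB q t) :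
    ∀ e, eval W m' (cT q t) e = eval W₀ m t e := by
  induction t with
  | const c => intro e; rfl
  | var v => intro e; rfl
  | get r i j k h1 h2 h3 =>
    intro e
    obtain ⟨hr, a1, a2, a3⟩ := ht
    simp only [cT, eval, g1]
    rw [h1 a1, h2 a2, h3 a3]
    have e1 : (0 : ℤ).toNat = 0 := rfl
    have e2 : (1 : ℤ).toNat = 1 := rfl
    have e3 : (2 : ℤ).toNat = 2 := rfl
    rw [e1, e2, e3, toNat_mul01 (hR.f r hr 0 (by norm_num)),
      toNat_mul01 (hR.f r hr 1 (by norm_num)), toNat_mul01 (hR.f r hr 2 (by norm_num)),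
      hR.g r hr]
  | add s t h1 h2 => intro e; simp only [cT, eval]; rw [h1 ht.1, h2 ht.2]
  | sub s t h1 h2 => intro e; simp only [cT, eval]; rw [h1 ht.1, h2 ht.2]
  | mul s t h1 h2 => intro e; simp only [cT, eval]; rw [h1 ht.1, h2 ht.2]
  | div s t h1 h2 => intro e; simp only [cT, eval]; rw [h1 ht.1, h2 ht.2]
  | lt s t h1 h2 => intro e; simp only [cT, eval]; rw [h1 ht.1, h2 ht.2]
  | sum v t h =>
    intro e
    have e1 : eval W m' (cT q (.sum v t)) e =
        ∑ x ∈ range W, iv ((x : ℤ) < (W₀ : ℤ)) * eval W₀ m t (Function.update e v (x : ℤ)) := by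
      show ∑ x ∈ range W, eval W m' (.mul (.lt (.var v) (g0 q)) (cT q t))
        (Function.update e v (x : ℤ)) = _
      refine Finset.sum_congr rfl fun x _ => ?_
      have e2 : eval W m' (.mul (.lt (.var v) (g0 q)) (cT q t)) (Function.update e v (x : ℤ)) =
          eval W m' (.lt (.var v) (g0 q)) (Function.update e v (x : ℤ)) *
          eval W m' (cT q t) (Function.update e v (x : ℤ)) := rfl
      rw [e2, eval_lt, h ht]
      have e3 : eval W m' (.var v) (Function.update e v (x : ℤ)) = x := by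
        simp only [eval, Function.update_self]
      have e4 : eval W m' (g0 q) (Function.update e v (x : ℤ)) = W₀ := hR.w
      rw [e3, e4]
    rw [e1, sum_lt W W₀ h0]
    rfl

lemma store_le (h0 : W₀ ≤ W) (z : ℤ) : |store W₀ z| < (W : ℤ) ∨ W = 0 := by
  unfold store
  split_ifs with h
  · left
    have : (W₀ : ℤ) ≤ W := by exact_mod_cast h0
    omega
  · rcases Nat.eq_zero_or_pos W with h1 | h1
    · right; exact h1
    · left; rw [abs_zero]; exact_mod_cast h1

lemma store_store (h0 : W₀ ≤ W) (hW : 0 < W) (z : ℤ) : store W (store W₀ z) = store W₀ z := by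
  rcases store_le h0 z with h | h
  · exact store_of_lt h
  · omega

lemma eval_gv {m' : Mem} (hw : m' q 0 0 0 = W₀) (t : Term) (e : ℕ → ℤ) :
    eval W m' (gv q t) e = store W₀ (eval W m' t e) := by
  have hg : eval W m' (g0 q) e = W₀ := hw
  have e1 : eval W m' (gv q t) e = (eval W m' (.lt t (g0 q)) e *
      eval W m' (.lt (.sub (.const 0) (g0 q)) t) e) * eval W m' t e := rfl
  have e2 : eval W m' (.sub (.const 0) (g0 q)) e = 0 - eval W m' (g0 q) e := rfl
  rw [e1, eval_lt, eval_lt, e2, hg, iv_mul]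
  unfold store
  set z := eval W m' t e
  by_cases h : |z| < (W₀ : ℤ)
  · rw [if_pos h, iv_pos, one_mul]
    rw [abs_lt] at h
    exact ⟨h.2, by omega⟩
  · rw [if_neg h, iv_neg, zero_mul]
    rintro ⟨h1, h2⟩
    exact h (abs_lt.mpr ⟨by omega, h1⟩)

lemma eval_gi {m' : Mem} (hw : m' q 0 0 0 = W₀) (i j k : ℕ) :
    eval W m' (gi q) (env i j k) = iv (i < W₀ ∧ j < W₀ ∧ k < W₀) := by
  have hg : eval W m' (g0 q) (env i j k) = W₀ := hw
  have e1 : eval W m' (gi q) (env i j k) = (eval W m' (.lt (.var 0) (g0 q)) (env i j k) *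
      eval W m' (.lt (.var 1) (g0 q)) (env i j k)) *
      eval W m' (.lt (.var 2) (g0 q)) (env i j k) := rfl
  rw [e1, eval_lt, eval_lt, eval_lt, hg, iv_mul, iv_mul]
  apply iv_congr
  have a0 : eval W m' (.var 0) (env i j k) = i := rfl
  have a1 : eval W m' (.var 1) (env i j k) = j := rfl
  have a2 : eval W m' (.var 2) (env i j k) = k := rfl
  rw [a0, a1, a2]
  constructor
  · rintro ⟨⟨h1, h2⟩, h3⟩
    exact ⟨by exact_mod_cast h1, by exact_mod_cast h2, by exact_mod_cast h3⟩
  · rintro ⟨h1, h2, h3⟩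
    exact ⟨⟨by exact_mod_cast h1, by exact_mod_cast h2⟩, by exact_mod_cast h3⟩

/-- array `r` and its flags are changed -/
lemma Rel.upd {m m' n n' : Mem} (hR : Rel q W₀ m m') {r : ℕ} (hr : r < q)
    (hn : ∀ r', r' ≠ r → n r' = m r') (hn' : ∀ r', r' ≠ r → r' ≠ q + 1 + r → n' r' = m' r')
    (hf : ∀ x < 3, n' (q + 1 + r) x 0 0 = 0 ∨ n' (q + 1 + r) x 0 0 = 1)
    (hg : ∀ i j k : ℕ, n r i j k = n' r ((n' (q + 1 + r) 0 0 0).toNat * i)
      ((n' (q + 1 + r) 1 0 0).toNat * j) ((n' (q + 1 + r) 2 0 0).toNat * k)) :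
    Rel q W₀ n n' := by
  refine ⟨?_, ?_, ?_⟩
  · rw [hn' q (by omega) (by omega)]; exact hR.w
  · intro r' hr' x hx
    by_cases h : r' = r
    · subst h; exact hf x hx
    · rw [hn' (q + 1 + r') (by omega) (by omega)]; exact hR.f r' hr' x hx
  · intro r' hr' i j k
    by_cases h : r' = r
    · subst h; exact hg i j k
    · rw [hn' (q + 1 + r') (by omega) (by omega), hn r' h, hn' r' h (by omega)]
      exact hR.g r' hr' i j k

lemma exec_assign_ne (W r : ℕ) (t : Term) (m : Mem) {r' : ℕ} (h : r' ≠ r) :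
    exec W (.assign r t) m r' = m r' := by
  simp only [exec]
  rw [Function.update_of_ne h]

lemma exec_assign_self (W r : ℕ) (t : Term) (m : Mem) (i j k : ℕ) :
    exec W (.assign r t) m r i j k =
      if i < W ∧ j < W ∧ k < W then store W (eval W m t (env i j k)) else 0 := by
  simp only [exec]
  rw [Function.update_self]

lemma sim_assign (h3 : 3 ≤ W) (h0 : W₀ ≤ W) {m m' : Mem} (hR : Rel q W₀ m m') {r : ℕ}
    {t : Term} (hr : r < q) (ht : TB q t) :
    Rel q W₀ (exec W₀ (.assign r t) m) (exec W (cP q (.assign r t)) m') := by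
  set m1 := exec W (.assign r (.mul (gi q) (gv q (cT q t)))) m' with hm1
  have hm2 : exec W (cP q (.assign r t)) m' = exec W (.assign (q + 1 + r) (.const 1)) m1 := rfl
  have hfl : ∀ x < 3, exec W (cP q (.assign r t)) m' (q + 1 + r) x 0 0 = 1 := by
    intro x hx
    rw [hm2, exec_assign_self]
    rw [if_pos ⟨by omega, by omega, by omega⟩]
    exact store_of_lt (by simp [eval]; omega)
  refine hR.upd hr ?_ ?_ ?_ ?_
  · intro r' h; exact exec_assign_ne _ _ _ _ h
  · intro r' h h'
    rw [hm2, exec_assign_ne _ _ _ _ h', hm1, exec_assign_ne _ _ _ _ h]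
  · intro x hx; right; exact hfl x hx
  · intro i j k
    rw [hfl 0 (by norm_num), hfl 1 (by norm_num), hfl 2 (by norm_num)]
    have e1 : (1 : ℤ).toNat = 1 := rfl
    rw [e1, one_mul, one_mul, one_mul, hm2,
      exec_assign_ne _ _ _ _ (show r ≠ q + 1 + r by omega), hm1,
      exec_assign_self, exec_assign_self]
    have e2 : eval W m' (.mul (gi q) (gv q (cT q t))) (env i j k) =
        iv (i < W₀ ∧ j < W₀ ∧ k < W₀) * store W₀ (eval W₀ m t (env i j k)) := by
      show eval W m' (gi q) (env i j k) * eval W m' (gv q (cT q t)) (env i j k) = _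
      rw [eval_gi hR.w, eval_gv hR.w, eval_cT h0 hR t ht]
    simp only [e2]
    by_cases h : i < W₀ ∧ j < W₀ ∧ k < W₀
    · rw [if_pos h, if_pos ⟨by omega, by omega, by omega⟩, iv_pos h, one_mul,
        store_store h0 (by omega)]
    · rw [if_neg h, iv_neg h, zero_mul]
      split_ifs
      · exact (store_of_lt (by simp; omega)).symm
      · rfl

lemma sim_setc (h3 : 3 ≤ W) (h0 : W₀ ≤ W) {m m' : Mem} (hR : Rel q W₀ m m') {r : ℕ}
    (hr : r < q) (i : ℕ) :
    Rel q W₀ (setc W₀ r i m) (exec W (.assign (q + 1 + r) (.const 0))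
      (exec W (.assign r (gv q (g0 r))) (setc W r i m'))) := by
  set m1 := setc W r i m' with hm1
  set m2 := exec W (.assign r (gv q (g0 r))) m1 with hm2
  have hw1 : m1 q 0 0 0 = W₀ := by
    rw [hm1, setc, Function.update_of_ne (by omega)]; exact hR.w
  have hfl : ∀ x < 3, exec W (.assign (q + 1 + r) (.const 0)) m2 (q + 1 + r) x 0 0 = 0 := by
    intro x hx
    rw [exec_assign_self]
    rw [if_pos ⟨by omega, by omega, by omega⟩]
    exact store_of_lt (by simp [eval]; omega)
  refine hR.upd hr ?_ ?_ ?_ ?_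
  · intro r' h; rw [setc, Function.update_of_ne h]
  · intro r' h h'
    rw [exec_assign_ne _ _ _ _ h', hm2, exec_assign_ne _ _ _ _ h, hm1, setc,
      Function.update_of_ne h]
  · intro x hx; left; exact hfl x hx
  · intro a b c
    rw [hfl 0 (by norm_num), hfl 1 (by norm_num), hfl 2 (by norm_num)]
    have e1 : (0 : ℤ).toNat = 0 := rfl
    rw [e1, zero_mul, zero_mul, zero_mul,
      exec_assign_ne _ _ _ _ (show r ≠ q + 1 + r by omega), hm2,
      exec_assign_self, if_pos ⟨by omega, by omega, by omega⟩, eval_gv hw1]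
    have e2 : eval W m1 (g0 r) (env (0 : ℕ) (0 : ℕ) (0 : ℕ)) = store W i := by
      show m1 r 0 0 0 = _
      rw [hm1, setc, Function.update_self]
    rw [e2, store_store h0 (by omega), setc, Function.update_self]
    unfold store
    have hi : |(i : ℤ)| = i := abs_of_nonneg (by positivity)
    have h0' : (W₀ : ℤ) ≤ W := by exact_mod_cast h0
    by_cases h : |(i : ℤ)| < (W₀ : ℤ)
    · rw [if_pos h, if_pos (show |(i : ℤ)| < (W : ℤ) by omega), if_pos h]
    · rw [if_neg h]
      by_cases h1 : |(i : ℤ)| < (W : ℤ)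
      · rw [if_pos h1, if_neg h]
      · rw [if_neg h1]; split_ifs <;> rfl

theorem sim (h3 : 3 ≤ W) (h0 : W₀ ≤ W) (P : Prog) (hP : PB q P) :
    ∀ m m', Rel q W₀ m m' → Rel q W₀ (exec W₀ P m) (exec W (cP q P) m') := by
  induction P with
  | assign r t => intro m m' hR; exact sim_assign h3 h0 hR hP.1 hP.2
  | seq p p' h1 h2 =>
    intro m m' hR
    exact h2 hP.2 _ _ (h1 hP.1 _ _ hR)
  | loop r t p h =>
    intro m m' hR
    obtain ⟨hr, ht, hp⟩ := hP
    simp only [cP, exec]
    rw [eval_cT h0 hR t ht]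
    generalize (eval W₀ m t (env 0 0 0)).toNat = n
    induction n with
    | zero => exact hR
    | succ n ihn => exact h hp _ _ (sim_setc h3 h0 ihn hr n)

lemma sim_iter (h3 : 3 ≤ W) (h0 : W₀ ≤ W) {P : Prog} (hP : PB q P) {m m' : Mem}
    (hR : Rel q W₀ m m') {r : ℕ} (hr : r < q) (n : ℕ) :
    Rel q W₀ (loopIter (fun i m' => exec W₀ P (setc W₀ r i m')) n m)
      (loopIter (fun i m' => exec W (.seq (.assign r (gv q (g0 r)))
        (.seq (.assign (q + 1 + r) (.const 0)) (cP q P))) (setc W r i m')) n m') := by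
  induction n with
  | zero => exact hR
  | succ n ihn => exact sim h3 h0 P hP _ _ (sim_setc h3 h0 ihn hr n)

/-! ### time -/

variable {κ : ℕ}

lemma one_le_cost (W : ℕ) (t : Term) : 1 ≤ cost W t := by
  cases t <;> simp only [cost] <;> omega

lemma cost_cT (hκ : Nat.clog 2 W ≤ κ * (Nat.clog 2 W₀ + 1)) (t : Term) :
    cost W (cT q t) ≤ (κ + 16) * cost W₀ t := by
  induction t with
  | const c => simp only [cT, cost]; omega
  | var v => simp only [cT, cost]; omega
  | get r i j k h1 h2 h3 =>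
    simp only [cT, cost, g1]
    nlinarith
  | add s t h1 h2 => simp only [cT, cost]; nlinarith
  | sub s t h1 h2 => simp only [cT, cost]; nlinarith
  | mul s t h1 h2 => simp only [cT, cost]; nlinarith
  | div s t h1 h2 => simp only [cT, cost]; nlinarith
  | lt s t h1 h2 => simp only [cT, cost]; nlinarith
  | sum v t h =>
    simp only [cT, cost, g0]
    nlinarith

theorem sim_time (h3 : 3 ≤ W) (h0 : W₀ ≤ W) (hκ : Nat.clog 2 W ≤ κ * (Nat.clog 2 W₀ + 1))
    (P : Prog) (hP : PB q P) : ∀ m m', Rel q W₀ m m' →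
    time W (cP q P) m' ≤ (3 * κ + 84) * time W₀ P m := by
  induction P with
  | assign r t =>
    intro m m' hR
    have h1 := cost_cT (q := q) hκ t
    have h2 := one_le_cost W₀ t
    simp only [cP, time, cost, gv, gi, g0]
    nlinarith
  | seq p p' h1 h2 =>
    intro m m' hR
    simp only [cP, time]
    have a := h1 hP.1 _ _ hR
    have b := h2 hP.2 _ _ (sim h3 h0 p hP.1 _ _ hR)
    rw [Nat.mul_add]
    omega
  | loop r t p h =>
    intro m m' hR
    obtain ⟨hr, ht, hp⟩ := hP
    have h1 := cost_cT (q := q) hκ t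
    have h2 := one_le_cost W₀ t
    have e1 : time W (cP q (.loop r t p)) m' = cost W (cT q t) +
        ∑ i ∈ range (eval W m' (cT q t) (env 0 0 0)).toNat,
        (time W (.seq (.assign r (gv q (g0 r)))
        (.seq (.assign (q + 1 + r) (.const 0)) (cP q p))) (setc W r i
          (loopIter (fun i m' => exec W (.seq (.assign r (gv q (g0 r)))
        (.seq (.assign (q + 1 + r) (.const 0)) (cP q p))) (setc W r i m')) i m')) + 1) := rfl
    rw [e1, eval_cT h0 hR t ht]
    have e2 : time W₀ (.loop r t p) m = cost W₀ t +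
        ∑ i ∈ range (eval W₀ m t (env 0 0 0)).toNat,
        (time W₀ p (setc W₀ r i
          (loopIter (fun i m' => exec W₀ p (setc W₀ r i m')) i m)) + 1) := rfl
    rw [e2, Nat.mul_add, Finset.mul_sum]
    refine Nat.add_le_add (by nlinarith) (Finset.sum_le_sum fun i _ => ?_)
    have hR' := sim_setc h3 h0 (sim_iter h3 h0 hp hR hr i) hr i
    have h5 := h hp _ _ hR'
    set X := loopIter (fun i m' => exec W₀ p (setc W₀ r i m')) i m
    set Y := loopIter (fun i m' => exec W (.seq (.assign r (gv q (g0 r)))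
        (.seq (.assign (q + 1 + r) (.const 0)) (cP q p))) (setc W r i m')) i m'
    have e3 : time W (.seq (.assign r (gv q (g0 r)))
        (.seq (.assign (q + 1 + r) (.const 0)) (cP q p))) (setc W r i Y) = 26 + (1 +
        time W (cP q p) (exec W (.assign (q + 1 + r) (.const 0))
      (exec W (.assign r (gv q (g0 r))) (setc W r i Y)))) := rfl
    rw [e3, Nat.mul_add]
    omega

end Pool.Agent.Helper65.OBP
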