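import Pool.Agent.Helper65.OBP.One
import Pool.Agent.Helper65.OBP.Sim
import Pool.Agent.Helper91.SM.CoreA

/-!
The program that builds the input of the instance `J`.
-/

namespace Pool.Agent.Helper65.OBP

open Finset Pool.Agent.Helper91.SM Pool.Agent.Helper91.SM.Term Pool.Agent.Helper91.SM.SMI

/-! ### codes of lists -/

lemma code_lt {l : List ℕ} {k : ℕ} (h : k < l.length) : code l k = (l[k] : ℤ) + 1 := by
  unfold code; rw [List.getElem?_eq_getElem h]

lemma code_ge {l : List ℕ} {k : ℕ} (h : l.length ≤ k) : code l k = 0 := by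
  unfold code; rw [List.getElem?_eq_none h]

lemma code_pos_iff {l : List ℕ} {k : ℕ} : 0 < code l k ↔ k < l.length := by
  rcases lt_or_ge k l.length with h | h
  · rw [code_lt h]
    constructor
    · intro _; exact h
    · intro _; positivity
  · rw [code_ge h]
    constructor
    · intro h'; omega
    · intro h'; omega

lemma code_nil (k : ℕ) : code [] k = 0 := code_ge (Nat.zero_le k)

lemma code_cons_zero (a : ℕ) (l : List ℕ) : code (a :: l) 0 = (a : ℤ) + 1 := rfl

lemma code_cons_succ (a : ℕ) (l : List ℕ) (k : ℕ) : code (a :: l) (k + 1) = code l k := rfl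

lemma code_append (l l' : List ℕ) (k : ℕ) : code (l ++ l') k =
    code l k + if l.length ≤ k then code l' (k - l.length) else 0 := by
  rcases lt_or_ge k l.length with h | h
  · rw [if_neg (by omega), add_zero]
    unfold code; rw [List.getElem?_append_left h]
  · rw [if_pos h, code_ge h, zero_add]
    unfold code; rw [List.getElem?_append_right h]

lemma code_map (n : ℕ) (l : List ℕ) (k : ℕ) : code (l.map (fun x => n + x)) k =
    iv (0 < code l k) * (code l k + n) := by
  rcases lt_or_ge k l.length with h | h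
  · rw [iv_pos (code_pos_iff.mpr h), one_mul, code_lt h, code_lt (by simpa using h)]
    simp only [List.getElem_map]
    push_cast; ring
  · rw [iv_neg (by rw [code_pos_iff]; omega), zero_mul, code_ge (by simpa using h)]

lemma code_nonneg (l : List ℕ) (k : ℕ) : 0 ≤ code l k := by
  rcases lt_or_ge k l.length with h | h
  · rw [code_lt h]; positivity
  · rw [code_ge h]

lemma code_le {l : List ℕ} {k B : ℕ} (h : ∀ x ∈ l, x < B) : code l k ≤ B := by
  rcases lt_or_ge k l.length with h1 | h1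
  · rw [code_lt h1]
    have := h _ (List.getElem_mem h1)
    exact_mod_cast this
  · rw [code_ge h1]; positivity

/-- codes of short lists -/
lemma code_three (a b c k : ℕ) : code [a, b, c] k =
    iv (k = 0) * ((a : ℤ) + 1) + iv (k = 1) * ((b : ℤ) + 1) + iv (k = 2) * ((c : ℤ) + 1) := by
  rcases k with _ | _ | _ | k
  · rw [iv_pos rfl, iv_neg (by omega), iv_neg (by omega), code_cons_zero]; ring
  · rw [iv_neg (by omega), iv_pos rfl, iv_neg (by omega), code_cons_succ, code_cons_zero]; ring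
  · rw [iv_neg (by omega), iv_neg (by omega), iv_pos rfl, code_cons_succ, code_cons_succ,
      code_cons_zero]; ring
  · rw [iv_neg (by omega), iv_neg (by omega), iv_neg (by omega), code_cons_succ, code_cons_succ,
      code_cons_succ, code_nil]; ring

lemma code_one (a k : ℕ) : code [a] k = iv (k = 0) * ((a : ℤ) + 1) := by
  rcases k with _ | k
  · rw [iv_pos rfl, code_cons_zero]; ring
  · rw [iv_neg (by omega), code_cons_succ, code_nil]; ring

lemma tail_one (len a k : ℕ) : (if len ≤ k then code [a] (k - len) else 0) =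
    iv (k = len) * ((a : ℤ) + 1) := by
  split_ifs with h
  · rw [code_one]
    rw [iv_congr (show k - len = 0 ↔ k = len by omega)]
  · rw [iv_neg (by omega)]; ring

lemma tail_two (len a b k : ℕ) : (if len ≤ k then code [a, b] (k - len) else 0) =
    iv (k = len) * ((a : ℤ) + 1) + iv (k = len + 1) * ((b : ℤ) + 1) := by
  split_ifs with h
  · obtain ⟨d, rfl⟩ := Nat.exists_eq_add_of_le h
    rw [Nat.add_sub_cancel_left]
    rcases d with _ | _ | d
    · rw [iv_pos (by omega), iv_neg (by omega), code_cons_zero]; ring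
    · rw [iv_neg (by omega), iv_pos (by omega), code_cons_succ, code_cons_zero]; ring
    · rw [iv_neg (by omega), iv_neg (by omega), code_cons_succ, code_cons_succ, code_nil]; ring
  · rw [iv_neg (by omega), iv_neg (by omega)]; ring

/-! ### the arrays of `J` -/

variable (I : SMI)

lemma codeM_1 {i : ℕ} (h : i < I.nm) (k : ℕ) : code (menJ I i) k =
    if k = 0 then ((NN I : ℤ) + i) + 1 else code (I.men i) (k - 1) +
      iv ((k : ℤ) - 1 = ((I.men i).length : ℤ)) * (((I.nw : ℤ) + i) + 1) := by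
  rw [menJ_1 I h]
  rcases k with _ | k
  · rw [if_pos rfl, code_cons_zero]; push_cast; ring
  · rw [if_neg (by omega), code_cons_succ, code_append, tail_one, Nat.add_sub_cancel,
      iv_congr (show k = (I.men i).length ↔ ((k + 1 : ℕ) : ℤ) - 1 = ((I.men i).length : ℤ) by
        omega)]
    push_cast; ring

lemma codeM_2 {i : ℕ} (h1 : I.nm ≤ i) (h2 : i < NN I) (k : ℕ) : code (menJ I i) k =
    if k = 0 then ((NN I : ℤ) + i) + 1 else
      iv (0 < code (I.women (i - I.nm)) (k - 1)) * (code (I.women (i - I.nm)) (k - 1) + I.nw) +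
      iv ((k : ℤ) - 1 = ((I.women (i - I.nm)).length : ℤ)) * (((i : ℤ) - I.nm) + 1) := by
  rw [menJ_2 I h1 h2]
  rcases k with _ | k
  · rw [if_pos rfl, code_cons_zero]; push_cast; ring
  · rw [if_neg (by omega), code_cons_succ, code_append, tail_one, Nat.add_sub_cancel, code_map,
      List.length_map,
      iv_congr (show k = (I.women (i - I.nm)).length ↔
        ((k + 1 : ℕ) : ℤ) - 1 = ((I.women (i - I.nm)).length : ℤ) by omega)]
    push_cast [Nat.cast_sub h1]; ring

lemma codeM_3 {i : ℕ} (h1 : NN I ≤ i) (h2 : i < 2 * NN I) (k : ℕ) : code (menJ I i) k =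
    iv ((k : ℤ) = 0) * (((i : ℤ) - NN I) + 1) + iv ((k : ℤ) = 1) * ((i : ℤ) + 1) +
      iv ((k : ℤ) = 2) * ((i : ℤ) + 2) := by
  rw [menJ_3 I h1 h2, code_three, iv_congr (show k = 0 ↔ (k : ℤ) = 0 by omega),
    iv_congr (show k = 1 ↔ (k : ℤ) = 1 by omega), iv_congr (show k = 2 ↔ (k : ℤ) = 2 by omega)]
  push_cast [Nat.cast_sub h1]; ring

lemma codeM_4 {i : ℕ} (h1 : 2 * NN I ≤ i) (k : ℕ) : code (menJ I i) k =
    iv ((k : ℤ) = 0) * ((NN I : ℤ) + 1) := by
  rw [menJ_4 I h1, code_one, iv_congr (show k = 0 ↔ (k : ℤ) = 0 by omega)]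

lemma codeW_1 {j : ℕ} (h : j < I.nw) (k : ℕ) : code (womenJ I j) k =
    code (I.women j) k + (iv ((k : ℤ) = ((I.women j).length : ℤ)) * (((I.nm : ℤ) + j) + 1) +
      iv ((k : ℤ) = ((I.women j).length : ℤ) + 1) * (((NN I : ℤ) + j) + 1)) := by
  rw [womenJ_1 I h, code_append, tail_two,
    iv_congr (show k = (I.women j).length ↔ (k : ℤ) = ((I.women j).length : ℤ) by omega),
    iv_congr (show k = (I.women j).length + 1 ↔ (k : ℤ) = ((I.women j).length : ℤ) + 1 by omega)]
  push_cast; ring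

lemma codeW_2 {j : ℕ} (h1 : I.nw ≤ j) (h2 : j < NN I) (k : ℕ) : code (womenJ I j) k =
    iv (0 < code (I.men (j - I.nw)) k) * (code (I.men (j - I.nw)) k + I.nm) +
      (iv ((k : ℤ) = ((I.men (j - I.nw)).length : ℤ)) * (((j : ℤ) - I.nw) + 1) +
      iv ((k : ℤ) = ((I.men (j - I.nw)).length : ℤ) + 1) * (((NN I : ℤ) + j) + 1)) := by
  rw [womenJ_2 I h1 h2, code_append, tail_two, code_map, List.length_map,
    iv_congr (show k = (I.men (j - I.nw)).length ↔
      (k : ℤ) = ((I.men (j - I.nw)).length : ℤ) by omega),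
    iv_congr (show k = (I.men (j - I.nw)).length + 1 ↔
      (k : ℤ) = ((I.men (j - I.nw)).length : ℤ) + 1 by omega)]
  push_cast [Nat.cast_sub h1]; ring

/-- first entry of the list of woman `j ≥ N`, plus one -/
def hd (I : SMI) (j : ℕ) : ℤ := if (j : ℤ) = NN I then 2 * (NN I : ℤ) + 1 else j

lemma hd_eq {j : ℕ} (h1 : NN I ≤ j) :
    (((if j = NN I then 2 * NN I else j - 1 : ℕ) : ℤ)) + 1 = hd I j := by
  unfold hd
  by_cases h : j = NN I
  · rw [if_pos h, if_pos (by exact_mod_cast h)]; push_cast; ring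
  · rw [if_neg h, if_neg (by exact_mod_cast h)]
    omega

lemma codeW_3 {j : ℕ} (h1 : NN I ≤ j) (h2 : j < 2 * NN I) (k : ℕ) : code (womenJ I j) k =
    iv ((k : ℤ) = 0) * hd I j + iv ((k : ℤ) = 1) * ((j : ℤ) + 1) +
      iv ((k : ℤ) = 2) * (((j : ℤ) - NN I) + 1) := by
  rw [womenJ_3 I h1 h2, code_three, hd_eq I h1, iv_congr (show k = 0 ↔ (k : ℤ) = 0 by omega),
    iv_congr (show k = 1 ↔ (k : ℤ) = 1 by omega), iv_congr (show k = 2 ↔ (k : ℤ) = 2 by omega)]
  push_cast [Nat.cast_sub h1]; ring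

lemma codeW_4 {j : ℕ} (h1 : 2 * NN I ≤ j) (k : ℕ) : code (womenJ I j) k =
    iv ((k : ℤ) = 0) * hd I j := by
  rw [womenJ_4 I h1, code_one, hd_eq I (by omega), iv_congr (show k = 0 ↔ (k : ℤ) = 0 by omega)]

/-! ### the terms -/

section terms
variable (B : ℕ)

def tn : Term := g1 B 0
def tw' : Term := g1 B 1
def tN : Term := tn B + tw' B

def tFM : Term :=
  .ite (.lt (.var 0) (tn B))
    (.ite (eqt (.var 1) 0) ((tN B + .var 0) + 1)
      (g2 1 (.var 0) (.var 1 - 1) + eqt (.var 1 - 1) (g1 (B + 1) (.var 0)) *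
        ((tw' B + .var 0) + 1)))
    (.ite (.lt (.var 0) (tN B))
      (.ite (eqt (.var 1) 0) ((tN B + .var 0) + 1)
        (.lt 0 (g2 2 (.var 0 - tn B) (.var 1 - 1)) *
          (g2 2 (.var 0 - tn B) (.var 1 - 1) + tw' B) +
          eqt (.var 1 - 1) (g1 (B + 2) (.var 0 - tn B)) * ((.var 0 - tn B) + 1)))
      (.ite (.lt (.var 0) (2 * tN B))
        ((eqt (.var 1) 0 * ((.var 0 - tN B) + 1) + eqt (.var 1) 1 * (.var 0 + 1)) +
          eqt (.var 1) 2 * (.var 0 + 2))
        (.ite (.lt (.var 0) (2 * tN B + 1)) (eqt (.var 1) 0 * (tN B + 1)) 0)))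

def thd : Term := .ite (eqt (.var 0) (tN B)) (2 * tN B + 1) (.var 0)

def tFW : Term :=
  .ite (.lt (.var 0) (tw' B))
    (g2 2 (.var 0) (.var 1) + (eqt (.var 1) (g1 (B + 2) (.var 0)) * ((tn B + .var 0) + 1) +
      eqt (.var 1) (g1 (B + 2) (.var 0) + 1) * ((tN B + .var 0) + 1)))
    (.ite (.lt (.var 0) (tN B))
      (.lt 0 (g2 1 (.var 0 - tw' B) (.var 1)) * (g2 1 (.var 0 - tw' B) (.var 1) + tn B) +
        (eqt (.var 1) (g1 (B + 1) (.var 0 - tw' B)) * ((.var 0 - tw' B) + 1) +
        eqt (.var 1) (g1 (B + 1) (.var 0 - tw' B) + 1) * ((tN B + .var 0) + 1)))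
      (.ite (.lt (.var 0) (2 * tN B))
        ((eqt (.var 1) 0 * thd B + eqt (.var 1) 1 * (.var 0 + 1)) +
          eqt (.var 1) 2 * ((.var 0 - tN B) + 1))
        (.ite (.lt (.var 0) (2 * tN B + 1)) (eqt (.var 1) 0 * thd B) 0)))

def tF3 : Term :=
  .ite (.lt (.var 0) (tN B)) ((tN B + .var 0) + 1)
    (.ite (.lt (.var 0) (2 * tN B)) ((.var 0 - tN B) + 1) 0)

def tF0 : Term := .lt (.var 0) 2 * (2 * tN B + 1)

end terms

/-- facts about the memory when the arrays of `J` are built -/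
structure Base (B : ℕ) (m : Mem) : Prop where
  nm : m B 0 0 0 = I.nm
  nw : m B 1 0 0 = I.nw
  lm : ∀ i < I.nm, m (B + 1) i 0 0 = ((I.men i).length : ℤ)
  lw : ∀ j < I.nw, m (B + 2) j 0 0 = ((I.women j).length : ℤ)
  a1 : ∀ i < I.nm, ∀ k, m 1 i k 0 = code (I.men i) k
  a2 : ∀ j < I.nw, ∀ k, m 2 j k 0 = code (I.women j) k

open Classical in
lemma ev_ite {W : ℕ} {m : Mem} {c s t : Term} {e : ℕ → ℤ} (p : Prop)
    (hc : eval W m c e = iv p) :
    eval W m (Term.ite c s t) e = if p then eval W m s e else eval W m t e := by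
  split_ifs with h
  · exact eval_ite_pos (by rw [hc, iv_pos h])
  · exact eval_ite_neg (by rw [hc, iv_neg h])

section ev
variable {I} {B : ℕ} {W : ℕ} {m : Mem} (hB : Base I B m) (e : ℕ → ℤ)

include hB

lemma ev_tn : eval W m (tn B) e = I.nm := hB.nm
lemma ev_tw' : eval W m (tw' B) e = I.nw := hB.nw
lemma ev_tN : eval W m (tN B) e = NN I := by
  unfold tN
  rw [ev_add, ev_tn hB, ev_tw' hB]; unfold NN; push_cast; rfl

theorem ev_tFM (i k l : ℕ) : eval W m (tFM B) (env i k l) =
    if i < 2 * NN I + 1 then code (menJ I i) k else 0 := by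
  have hN : NN I = I.nm + I.nw := rfl
  unfold tFM
  rw [ev_ite (i < I.nm) (by rw [eval_lt, ev_tn hB, ev_var, env0]; norm_cast)]
  have ek : eval W m (eqt (.var 1) 0) (env i k l) = iv (k = 0) := by
    rw [eval_eqt, ev_var, env1, ev_zero]; norm_cast
  by_cases h1 : i < I.nm
  · rw [if_pos h1, if_pos (by omega), ev_ite _ ek, codeM_1 I h1]
    by_cases hk : k = 0
    · rw [if_pos hk, if_pos hk, ev_add, ev_add, ev_tN hB, ev_var, env0, ev_one]
    · rw [if_neg hk, if_neg hk, ev_add, ev_mul, ev_add, ev_add, eval_eqt, ev_g2, ev_g1, ev_sub,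
        ev_tw' hB, ev_var, ev_var, env0, env1, ev_one, Int.toNat_natCast, hB.lm i h1,
        show ((k : ℤ) - 1).toNat = k - 1 by omega, hB.a1 i h1]
  · rw [if_neg h1, ev_ite (i < NN I) (by rw [eval_lt, ev_tN hB, ev_var, env0]; norm_cast)]
    by_cases h2 : i < NN I
    · rw [if_pos h2, if_pos (by omega), ev_ite _ ek, codeM_2 I (by omega) h2]
      by_cases hk : k = 0
      · rw [if_pos hk, if_pos hk, ev_add, ev_add, ev_tN hB, ev_var, env0, ev_one]
      · rw [if_neg hk, if_neg hk]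
        simp only [ev_add, ev_mul, eval_lt, eval_eqt, ev_g2, ev_g1, ev_sub, ev_tw' hB, ev_tn hB,
          ev_var, env0, env1, ev_one, ev_zero]
        rw [show ((k : ℤ) - 1).toNat = k - 1 by omega,
          show ((i : ℤ) - I.nm).toNat = i - I.nm by omega, hB.lw _ (by omega),
          hB.a2 _ (by omega)]
    · rw [if_neg h2, ev_ite (i < 2 * NN I) (by
        rw [eval_lt, ev_mul, ev_tN hB, ev_var, env0, ev_num]; norm_cast)]
      by_cases h3 : i < 2 * NN I
      · rw [if_pos h3, if_pos (by omega), codeM_3 I (by omega) h3]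
        simp only [ev_add, ev_mul, eval_eqt, ev_sub, ev_tN hB,
          ev_var, env0, env1, ev_one, ev_zero, ev_num]
      · rw [if_neg h3, ev_ite (i < 2 * NN I + 1) (by
          rw [eval_lt, ev_add, ev_mul, ev_tN hB, ev_var, env0, ev_num, ev_one]; norm_cast)]
        by_cases h4 : i < 2 * NN I + 1
        · rw [if_pos h4, if_pos h4, codeM_4 I (by omega)]
          simp only [ev_add, ev_mul, eval_eqt, ev_tN hB, ev_var, env1, ev_one, ev_zero]
        · rw [if_neg h4, if_neg h4, ev_zero]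

lemma ev_thd (i k l : ℕ) : eval W m (thd B) (env i k l) = hd I i := by
  unfold thd hd
  rw [ev_ite ((i : ℤ) = NN I) (by rw [eval_eqt, ev_tN hB, ev_var, env0])]
  simp only [ev_add, ev_mul, ev_tN hB, ev_var, env0, ev_one, ev_num]
  all_goals (split_ifs <;> rfl)

theorem ev_tFW (j k l : ℕ) : eval W m (tFW B) (env j k l) =
    if j < 2 * NN I + 1 then code (womenJ I j) k else 0 := by
  have hN : NN I = I.nm + I.nw := rfl
  unfold tFW
  rw [ev_ite (j < I.nw) (by rw [eval_lt, ev_tw' hB, ev_var, env0]; norm_cast)]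
  by_cases h1 : j < I.nw
  · rw [if_pos h1, if_pos (by omega), codeW_1 I h1]
    simp only [ev_add, ev_mul, eval_eqt, ev_g2, ev_g1, ev_tn hB, ev_tN hB,
          ev_var, env0, env1, ev_one, Int.toNat_natCast]
    rw [hB.lw j h1, hB.a2 j h1]
  · rw [if_neg h1, ev_ite (j < NN I) (by rw [eval_lt, ev_tN hB, ev_var, env0]; norm_cast)]
    by_cases h2 : j < NN I
    · rw [if_pos h2, if_pos (by omega), codeW_2 I (by omega) h2]
      simp only [ev_add, ev_mul, eval_lt, eval_eqt, ev_g2, ev_g1, ev_sub, ev_tw' hB, ev_tn hB,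
          ev_tN hB, ev_var, env0, env1, ev_one, ev_zero, Int.toNat_natCast]
      rw [show ((j : ℤ) - I.nw).toNat = j - I.nw by omega, hB.lm _ (by omega),
          hB.a1 _ (by omega)]
    · rw [if_neg h2, ev_ite (j < 2 * NN I) (by
        rw [eval_lt, ev_mul, ev_tN hB, ev_var, env0, ev_num]; norm_cast)]
      by_cases h3 : j < 2 * NN I
      · rw [if_pos h3, if_pos (by omega), codeW_3 I (by omega) h3]
        simp only [ev_add, ev_mul, eval_eqt, ev_sub, ev_tN hB, ev_thd hB,
          ev_var, env0, env1, ev_one, ev_zero, ev_num]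
      · rw [if_neg h3, ev_ite (j < 2 * NN I + 1) (by
          rw [eval_lt, ev_add, ev_mul, ev_tN hB, ev_var, env0, ev_num, ev_one]; norm_cast)]
        by_cases h4 : j < 2 * NN I + 1
        · rw [if_pos h4, if_pos h4, codeW_4 I (by omega)]
          simp only [ev_mul, eval_eqt, ev_thd hB, ev_var, env1, ev_zero]
        · rw [if_neg h4, if_neg h4, ev_zero]

end ev

lemma ev_tF3 {B : ℕ} {W : ℕ} {m : Mem} (h1 : m B 0 0 0 = I.nm) (h2 : m B 1 0 0 = I.nw)
    (i k l : ℕ) : eval W m (tF3 B) (env i k l) = fJ I i := by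
  have hN : eval W m (tN B) (env i k l) = NN I := by
    unfold tN tn tw'
    rw [ev_add]
    show m B 0 0 0 + m B 1 0 0 = _
    rw [h1, h2]; unfold NN; push_cast; rfl
  unfold tF3 fJ
  rw [ev_ite (i < NN I) (by rw [eval_lt, hN, ev_var, env0]; norm_cast)]
  by_cases h : i < NN I
  · rw [if_pos h, if_pos h, ev_add, ev_add, hN, ev_var, env0, ev_one]; push_cast; ring
  · rw [if_neg h, if_neg h, ev_ite (i < 2 * NN I) (by
        rw [eval_lt, ev_mul, hN, ev_var, env0, ev_num]; norm_cast)]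
    by_cases h3 : i < 2 * NN I
    · rw [if_pos h3, if_pos h3, ev_add, ev_sub, hN, ev_var, env0, ev_one]
      omega
    · rw [if_neg h3, if_neg h3, ev_zero]

lemma ev_tF0 {B : ℕ} {W : ℕ} {m : Mem} (h1 : m B 0 0 0 = I.nm) (h2 : m B 1 0 0 = I.nw)
    (i k l : ℕ) : eval W m (tF0 B) (env i k l) = if i < 2 then ((2 * NN I + 1 : ℕ) : ℤ) else 0 := by
  have hN : eval W m (tN B) (env i k l) = NN I := by
    unfold tN tn tw'
    rw [ev_add]
    show m B 0 0 0 + m B 1 0 0 = _
    rw [h1, h2]; unfold NN; push_cast; rfl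
  unfold tF0
  rw [ev_mul, eval_lt, ev_add, ev_mul, hN, ev_var, env0, ev_num, ev_one]
  by_cases h : i < 2
  · rw [if_pos h, iv_pos (by exact_mod_cast h)]; push_cast; ring
  · rw [if_neg h, iv_neg (by exact_mod_cast h)]; ring

end Pool.Agent.Helper65.OBP
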