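import Pool.Agent.Helper65.OBP.Pre

/-!
The preparatory program.
-/

namespace Pool.Agent.Helper65.OBP

open Finset Pool.Agent.Helper91.SM Pool.Agent.Helper91.SM.Term Pool.Agent.Helper91.SM.SMI

/-- power of the number in array `r` -/
def pw (r : ℕ) : ℕ → Term
  | 0 => 1
  | c + 1 => pw r c * g0 r

/-- lengths of the rows of array `r` -/
def tL (r : ℕ) : Term := .sum 3 (.lt 0 (g2 r (.var 0) (.var 3)))

/-- size of `J`, plus two -/
def tS (B : ℕ) : Term := (2 * (.sum 3 (g1 (B + 1) (.var 3)) + .sum 3 (g1 (B + 2) (.var 3))) +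
  14 * tN B) + 6

def preA (q c B : ℕ) : Prog :=
  .seq (.assign B (g1 0 (.var 0))) (.seq (.assign (B + 1) (tL 1)) (.seq (.assign (B + 2) (tL 2))
  (.seq (.assign (B + 3) (tS B)) (.assign q (pw (B + 3) c)))))

def preB (B : ℕ) : Prog :=
  .seq (.assign (B + 4) (tFM B)) (.seq (.assign 2 (tFW B)) (.seq (.assign 1 (g2 (B + 4) (.var 0)
    (.var 1))) (.seq (.assign 3 (tF3 B)) (.assign 0 (tF0 B)))))

def preC (q : ℕ) : Prog :=
  .seq (.assign (q + 1 + 0) (eqt (.var 0) 0)) (.seq (.assign (q + 1 + 1) (.lt (.var 0) 2))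
    (.seq (.assign (q + 1 + 2) (.lt (.var 0) 2)) (.assign (q + 1 + 3) (eqt (.var 0) 0))))

def pre (q c : ℕ) : Prog := .seq (preA q c (2 * q + 1)) (.seq (preB (2 * q + 1)) (preC q))

lemma steps_pre (W q c : ℕ) (m : Mem) : steps W (pre q c) m = 14 := rfl

lemma time_pre (W q c : ℕ) (m : Mem) :
    time W (pre q c) m ≤ psize (pre q c) * 14 * (Nat.clog 2 W + 1) := by
  have := time_le W (pre q c) m
  rw [steps_pre] at this
  calc _ ≤ _ := this
    _ = _ := by ring

variable (I : SMI)

lemma men_len_le {i : ℕ} (hi : i < I.nm) : (I.men i).length + 1 ≤ I.size := by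
  unfold SMI.size
  have := Finset.single_le_sum (f := fun i => (I.men i).length + 1) (fun i _ => Nat.zero_le _)
    (Finset.mem_range.mpr hi)
  omega

lemma women_len_le {j : ℕ} (hj : j < I.nw) : (I.women j).length + 1 ≤ I.size := by
  unfold SMI.size
  have := Finset.single_le_sum (f := fun i => (I.women i).length + 1) (fun i _ => Nat.zero_le _)
    (Finset.mem_range.mpr hj)
  omega

lemma NN_le : NN I ≤ I.size := by rw [size_eq]; omega

lemma enc0 (i j k : ℕ) : I.encode 0 i j k =
    if i = 0 then (I.nm : ℤ) else if i = 1 then (I.nw : ℤ) else 0 := rfl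

lemma enc1 (i j k : ℕ) : I.encode 1 i j k = if i < I.nm then code (I.men i) j else 0 := by
  unfold SMI.encode
  rw [if_neg (by norm_num)]
  by_cases h : i < I.nm
  · rw [if_pos ⟨rfl, h⟩, if_pos h]
  · rw [if_neg (fun h' => h h'.2), if_neg (by omega), if_neg h]

lemma enc2 (i j k : ℕ) : I.encode 2 i j k = if i < I.nw then code (I.women i) j else 0 := by
  unfold SMI.encode
  rw [if_neg (by norm_num), if_neg (by omega)]
  by_cases h : i < I.nw
  · rw [if_pos ⟨rfl, h⟩, if_pos h]
  · rw [if_neg (fun h' => h h'.2), if_neg h]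

lemma enc3 {r : ℕ} (hr : 3 ≤ r) : I.encode r = fun _ _ _ => 0 := by
  funext i j k
  unfold SMI.encode
  rw [if_neg (by omega), if_neg (by omega), if_neg (by omega)]

lemma sum_code (l : List ℕ) {W : ℕ} (h : l.length ≤ W) :
    ∑ k ∈ range W, iv (0 < code l k) = (l.length : ℤ) := by
  have h1 : ∀ k ∈ range W, iv (0 < code l k) = iv ((k : ℤ) < (l.length : ℤ)) * 1 := by
    intro k _
    rw [mul_one]
    exact iv_congr (by rw [code_pos_iff]; norm_cast)
  rw [Finset.sum_congr rfl h1, sum_lt W _ h]
  simp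

lemma sum_zero_tail {n W : ℕ} (h : n ≤ W) (F : ℕ → ℤ) (h0 : ∀ x, n ≤ x → x < W → F x = 0) :
    ∑ x ∈ range W, F x = ∑ x ∈ range n, F x := by
  symm
  refine Finset.sum_subset (Finset.range_mono h) (fun x hx hx' => ?_)
  rw [Finset.mem_range] at hx hx'
  exact h0 x (by omega) hx

variable {q c W : ℕ} {m : Mem}

/-- state after the first part -/
structure StA (I : SMI) (q c : ℕ) (m : Mem) : Prop where
  base : Base I (2 * q + 1) m
  w : m q 0 0 0 = (((JJ I).size + 2) ^ c : ℕ)
  fr : ∀ r, r ≠ q → r < 2 * q + 1 → m r = I.encode r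

lemma preA_spec (hq : 4 ≤ q) (hW : (JJ I).size + 2 < W) (hW' : ((JJ I).size + 2) ^ c < W) :
    StA I q c (exec W (preA q c (2 * q + 1)) I.encode) := by
  have hN : NN I = I.nm + I.nw := rfl
  have hs := sizeJ I
  set B := 2 * q + 1 with hB
  set m0 := I.encode with hm0
  set m1 := exec W (.assign B (g1 0 (.var 0))) m0 with hm1
  set m2 := exec W (.assign (B + 1) (tL 1)) m1 with hm2
  set m3 := exec W (.assign (B + 2) (tL 2)) m2 with hm3
  set m4 := exec W (.assign (B + 3) (tS B)) m3 with hm4
  set m5 := exec W (.assign q (pw (B + 3) c)) m4 with hm5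
  have f1 : ∀ r, r ≠ B → m1 r = m0 r := fun r hr => exec_assign_ne _ _ _ _ hr
  have f2 : ∀ r, r ≠ B + 1 → m2 r = m1 r := fun r hr => exec_assign_ne _ _ _ _ hr
  have f3 : ∀ r, r ≠ B + 2 → m3 r = m2 r := fun r hr => exec_assign_ne _ _ _ _ hr
  have f4 : ∀ r, r ≠ B + 3 → m4 r = m3 r := fun r hr => exec_assign_ne _ _ _ _ hr
  have f5 : ∀ r, r ≠ q → m5 r = m4 r := fun r hr => exec_assign_ne _ _ _ _ hr
  have hW0 : 0 < W := by omega
  have b0 : ∀ i < W, m1 B i 0 0 = m0 0 i 0 0 := by
    intro i hi
    rw [hm1, exec_assign_self, if_pos ⟨hi, hW0, hW0⟩, ev_g1, ev_var, env0, Int.toNat_natCast]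
    apply store_of_lt
    rw [hm0, enc0]
    split_ifs
    · rw [abs_of_nonneg (by positivity)]; omega
    · rw [abs_of_nonneg (by positivity)]; omega
    · rw [abs_zero]; omega
  have b1 : ∀ i < W, m2 (B + 1) i 0 0 = if i < I.nm then ((I.men i).length : ℤ) else 0 := by
    intro i hi
    rw [hm2, exec_assign_self, if_pos ⟨hi, hW0, hW0⟩]
    have : eval W m1 (tL 1) (env i 0 0) = if i < I.nm then ((I.men i).length : ℤ) else 0 := by
      unfold tL
      rw [ev_sum]
      simp only [eval_lt, ev_zero, ev_g2, ev_var, Function.update_self, Int.toNat_natCast,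
        Function.update_of_ne (show (0:ℕ) ≠ 3 by decide), env0]
      rw [f1 1 (by omega), hm0]
      simp only [enc1]
      by_cases h : i < I.nm
      · simp only [if_pos h]
        have := men_len_le I h
        have := size_eq I
        exact sum_code _ (by omega)
      · simp only [if_neg h]
        rw [Finset.sum_congr rfl (fun x _ => iv_neg (lt_irrefl 0))]
        simp
    rw [this]
    apply store_of_lt
    split_ifs with h
    · have := men_len_le I h
      have := size_eq I
      rw [abs_of_nonneg (by positivity)]; omega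
    · rw [abs_zero]; omega
  have b2 : ∀ i < W, m3 (B + 2) i 0 0 = if i < I.nw then ((I.women i).length : ℤ) else 0 := by
    intro i hi
    rw [hm3, exec_assign_self, if_pos ⟨hi, hW0, hW0⟩]
    have : eval W m2 (tL 2) (env i 0 0) = if i < I.nw then ((I.women i).length : ℤ) else 0 := by
      unfold tL
      rw [ev_sum]
      simp only [eval_lt, ev_zero, ev_g2, ev_var, Function.update_self, Int.toNat_natCast,
        Function.update_of_ne (show (0:ℕ) ≠ 3 by decide), env0]
      rw [f2 2 (by omega), f1 2 (by omega), hm0]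
      simp only [enc2]
      by_cases h : i < I.nw
      · simp only [if_pos h]
        have := women_len_le I h
        have := size_eq I
        exact sum_code _ (by omega)
      · simp only [if_neg h]
        rw [Finset.sum_congr rfl (fun x _ => iv_neg (lt_irrefl 0))]
        simp
    rw [this]
    apply store_of_lt
    split_ifs with h
    · have := women_len_le I h
      have := size_eq I
      rw [abs_of_nonneg (by positivity)]; omega
    · rw [abs_zero]; omega
  have c0 : ∀ i < W, m3 B i 0 0 = m0 0 i 0 0 := by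
    intro i hi
    rw [f3 B (by omega), f2 B (by omega), b0 i hi]
  have c1 : ∀ i < W, m3 (B + 1) i 0 0 = if i < I.nm then ((I.men i).length : ℤ) else 0 := by
    intro i hi
    rw [f3 (B + 1) (by omega), b1 i hi]
  have nm3 : m3 B 0 0 0 = I.nm := by rw [c0 0 hW0, hm0, enc0, if_pos rfl]
  have nw3 : m3 B 1 0 0 = I.nw := by
    rw [c0 1 (by omega), hm0, enc0, if_neg (by norm_num), if_pos rfl]
  have d : m4 (B + 3) 0 0 0 = (((JJ I).size + 2 : ℕ) : ℤ) := by
    rw [hm4, exec_assign_self, if_pos ⟨hW0, hW0, hW0⟩]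
    have : eval W m3 (tS B) (env (0:ℕ) (0:ℕ) (0:ℕ)) = (((JJ I).size + 2 : ℕ) : ℤ) := by
      have e1 : eval W m3 (.sum 3 (g1 (B + 1) (.var 3))) (env (0:ℕ) (0:ℕ) (0:ℕ)) = (tm I : ℤ) := by
        rw [ev_sum]
        simp only [ev_g1, ev_var, Function.update_self, Int.toNat_natCast]
        rw [sum_zero_tail (n := I.nm) (by omega) _ (fun x hx hx' => by
          rw [c1 x hx', if_neg (by omega)])]
        unfold tm
        push_cast
        refine Finset.sum_congr rfl fun x hx => ?_
        rw [Finset.mem_range] at hx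
        rw [c1 x (by omega), if_pos hx]
      have e2 : eval W m3 (.sum 3 (g1 (B + 2) (.var 3))) (env (0:ℕ) (0:ℕ) (0:ℕ)) = (tw I : ℤ) := by
        rw [ev_sum]
        simp only [ev_g1, ev_var, Function.update_self, Int.toNat_natCast]
        rw [sum_zero_tail (n := I.nw) (by omega) _ (fun x hx hx' => by
          rw [b2 x hx', if_neg (by omega)])]
        unfold tw
        push_cast
        refine Finset.sum_congr rfl fun x hx => ?_
        rw [Finset.mem_range] at hx
        rw [b2 x (by omega), if_pos hx]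
      have e3 : eval W m3 (tN B) (env (0:ℕ) (0:ℕ) (0:ℕ)) = (NN I : ℤ) := by
        unfold tN
        rw [ev_add]
        show m3 B 0 0 0 + m3 B 1 0 0 = _
        rw [nm3, nw3, hN]; push_cast; rfl
      unfold tS
      rw [ev_add, ev_add, ev_mul, ev_mul, ev_add, e1, e2, e3, ev_num, ev_num, ev_num, hs]
      push_cast; ring
    rw [this]
    exact store_nat hW
  have e : m5 q 0 0 0 = (((JJ I).size + 2) ^ c : ℕ) := by
    rw [hm5, exec_assign_self, if_pos ⟨hW0, hW0, hW0⟩]
    have : ∀ n, eval W m4 (pw (B + 3) n) (env (0:ℕ) (0:ℕ) (0:ℕ)) =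
        (((JJ I).size + 2) ^ n : ℕ) := by
      intro n
      induction n with
      | zero => rfl
      | succ n ih =>
        show eval W m4 (pw (B + 3) n * g0 (B + 3)) _ = _
        rw [ev_mul, ih, ev_g0, d, pow_succ]
        push_cast; ring
    rw [this]
    exact store_nat hW'
  show StA I q c m5
  refine ⟨⟨?_, ?_, ?_, ?_, ?_, ?_⟩, e, ?_⟩
  · rw [f5 _ (by omega), f4 _ (by omega)]; exact nm3
  · rw [f5 _ (by omega), f4 _ (by omega)]; exact nw3
  · intro i hi
    rw [f5 _ (by omega), f4 _ (by omega), c1 i (by omega), if_pos hi]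
  · intro j hj
    rw [f5 _ (by omega), f4 _ (by omega), b2 j (by omega), if_pos hj]
  · intro i hi k
    rw [f5 _ (by omega), f4 _ (by omega), f3 _ (by omega), f2 _ (by omega), f1 _ (by omega), hm0,
      enc1, if_pos hi]
  · intro j hj k
    rw [f5 _ (by omega), f4 _ (by omega), f3 _ (by omega), f2 _ (by omega), f1 _ (by omega), hm0,
      enc2, if_pos hj]
  · intro r h1 h2
    rw [f5 _ h1, f4 _ (by omega), f3 _ (by omega), f2 _ (by omega), f1 _ (by omega)]

end Pool.Agent.Helper65.OBP
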