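import Pool.Agent.Helper65.OBP.J

/-!
Preferences in the instance `J`.
-/

namespace Pool.Agent.Helper65.OBP

open Finset Pool.Agent.Helper91.SM Pool.Agent.Helper91.SM.SMI

lemma idxOf_map_inj {f : ℕ → ℕ} (hf : Function.Injective f) (l : List ℕ) (x : ℕ) :
    (l.map f).idxOf (f x) = l.idxOf x := by
  induction l with
  | nil => rfl
  | cons a l ih =>
    rw [List.map_cons]
    by_cases h : a = x
    · rw [h, List.idxOf_cons_self, List.idxOf_cons_self]
    · rw [List.idxOf_cons_ne _ (fun h' => h (hf h')), List.idxOf_cons_ne _ h, ih]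

lemma pref_map {f : ℕ → ℕ} (hf : Function.Injective f) (l : List ℕ) (x y : ℕ) :
    Prefers (l.map f) (f x) (f y) ↔ Prefers l x y := by
  unfold Prefers; rw [idxOf_map_inj hf, idxOf_map_inj hf]

lemma pref_cons {a x y : ℕ} (l : List ℕ) (hx : a ≠ x) (hy : a ≠ y) :
    Prefers (a :: l) x y ↔ Prefers l x y := by
  unfold Prefers; rw [List.idxOf_cons_ne _ hx, List.idxOf_cons_ne _ hy]; omega

lemma pref_head {a y : ℕ} (l : List ℕ) (hy : a ≠ y) : Prefers (a :: l) a y := by
  unfold Prefers; rw [List.idxOf_cons_self, List.idxOf_cons_ne _ hy]; omega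

lemma pref_app {l l' : List ℕ} {x y : ℕ} (hx : x ∈ l) (hy : y ∈ l) :
    Prefers (l ++ l') x y ↔ Prefers l x y := by
  unfold Prefers; rw [List.idxOf_append_of_mem hx, List.idxOf_append_of_mem hy]

lemma pref_app_mix {l l' : List ℕ} {x y : ℕ} (hx : x ∈ l) (hy : y ∉ l) :
    Prefers (l ++ l') x y := by
  unfold Prefers; rw [List.idxOf_append_of_mem hx, List.idxOf_append_of_notMem hy]
  have := List.idxOf_lt_length_iff.mpr hx
  omega

/-- if `x` is on the list, then it is preferred to the different element `y`, or `y` is on the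
list and preferred to `x` -/
lemma pref_total {l : List ℕ} {x y : ℕ} (hx : x ∈ l) (hxy : x ≠ y) (h : ¬ Prefers l x y) :
    y ∈ l ∧ Prefers l y x := by
  unfold Prefers at h ⊢
  have h1 := List.idxOf_lt_length_iff.mpr hx
  have h2 : l.idxOf y < l.length := by omega
  have hy := List.idxOf_lt_length_iff.mp h2
  have h3 : l.idxOf x ≠ l.idxOf y := fun h' => hxy ((List.idxOf_inj hx).mp h')
  exact ⟨hy, by omega⟩

lemma pref_irr {l : List ℕ} {x y : ℕ} (h : Prefers l x y) : x ≠ y := by
  rintro rfl; unfold Prefers at h; omega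

variable (I : SMI)

section Men

variable {i : ℕ}

lemma m1_pref (h : i < I.nm) {x y : ℕ} (hx : x ∈ I.men i) (hy : y ∈ I.men i) :
    Prefers (menJ I i) x y ↔ Prefers (I.men i) x y := by
  have h1 := I.men_lt i h x hx
  have h2 := I.men_lt i h y hy
  have h3 : NN I = I.nm + I.nw := rfl
  rw [menJ_1 I h, pref_cons _ (by omega) (by omega), pref_app hx hy]

lemma m1_last (h : i < I.nm) {x : ℕ} (hx : x ∈ I.men i) :
    Prefers (menJ I i) x (I.nw + i) := by
  have h1 := I.men_lt i h x hx
  have h3 : NN I = I.nm + I.nw := rfl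
  rw [menJ_1 I h, pref_cons _ (by omega) (by omega)]
  exact pref_app_mix hx (fun hy => by have := I.men_lt i h _ hy; omega)

lemma m1_head (h : i < I.nm) {x : ℕ} (hx : x ≠ NN I + i) :
    Prefers (menJ I i) (NN I + i) x := by
  rw [menJ_1 I h]; exact pref_head _ (fun h' => hx h'.symm)

lemma m2_pref (h1 : I.nm ≤ i) (h2 : i < NN I) {x y : ℕ} (hx : x ∈ I.women (i - I.nm))
    (hy : y ∈ I.women (i - I.nm)) :
    Prefers (menJ I i) (I.nw + x) (I.nw + y) ↔ Prefers (I.women (i - I.nm)) x y := by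
  have h3 : NN I = I.nm + I.nw := rfl
  have a := I.women_lt (i - I.nm) (by omega) x hx
  have b := I.women_lt (i - I.nm) (by omega) y hy
  rw [menJ_2 I h1 h2, pref_cons _ (by omega) (by omega),
    pref_app (List.mem_map_of_mem hx) (List.mem_map_of_mem hy)]
  exact pref_map (f := fun x => I.nw + x) (fun a b h => by simpa using h) _ _ _

lemma m2_head (h1 : I.nm ≤ i) (h2 : i < NN I) {x : ℕ} (hx : x ≠ NN I + i) :
    Prefers (menJ I i) (NN I + i) x := by
  rw [menJ_2 I h1 h2]; exact pref_head _ (fun h' => hx h'.symm)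

end Men

section Women

variable {j : ℕ}

lemma w1_pref (h : j < I.nw) {x y : ℕ} (hx : x ∈ I.women j) (hy : y ∈ I.women j) :
    Prefers (womenJ I j) x y ↔ Prefers (I.women j) x y := by
  rw [womenJ_1 I h, pref_app hx hy]

lemma w1_mix (h : j < I.nw) {x y : ℕ} (hx : x ∈ I.women j) (hy : y ∉ I.women j) :
    Prefers (womenJ I j) x y := by
  rw [womenJ_1 I h]; exact pref_app_mix hx hy

lemma w1_two (h : j < I.nw) : Prefers (womenJ I j) (I.nm + j) (NN I + j) := by
  have h3 : NN I = I.nm + I.nw := rfl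
  have a : I.nm + j ∉ I.women j := fun h' => by have := I.women_lt j h _ h'; omega
  have b : NN I + j ∉ I.women j := fun h' => by have := I.women_lt j h _ h'; omega
  rw [womenJ_1 I h]
  unfold Prefers
  rw [List.idxOf_append_of_notMem a, List.idxOf_append_of_notMem b, List.idxOf_cons_self,
    List.idxOf_cons_ne _ (by omega)]
  omega

lemma w2_pref (h1 : I.nw ≤ j) (h2 : j < NN I) {x y : ℕ} (hx : x ∈ I.men (j - I.nw))
    (hy : y ∈ I.men (j - I.nw)) :
    Prefers (womenJ I j) (I.nm + x) (I.nm + y) ↔ Prefers (I.men (j - I.nw)) x y := by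
  rw [womenJ_2 I h1 h2, pref_app (List.mem_map_of_mem hx) (List.mem_map_of_mem hy)]
  exact pref_map (f := fun x => I.nm + x) (fun a b h => by simpa using h) _ _ _

lemma w2_mix (h1 : I.nw ≤ j) (h2 : j < NN I) {x y : ℕ} (hx : x ∈ I.men (j - I.nw))
    (hy : ∀ z ∈ I.men (j - I.nw), y ≠ I.nm + z) : Prefers (womenJ I j) (I.nm + x) y := by
  rw [womenJ_2 I h1 h2]
  refine pref_app_mix (List.mem_map_of_mem hx) (fun h => ?_)
  rw [List.mem_map] at h
  obtain ⟨z, hz, h⟩ := h
  exact hy z hz h.symm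

lemma w2_two (h1 : I.nw ≤ j) (h2 : j < NN I) :
    Prefers (womenJ I j) (j - I.nw) (NN I + j) := by
  have h3 : NN I = I.nm + I.nw := rfl
  have a : j - I.nw ∉ (I.men (j - I.nw)).map (fun x => I.nm + x) := fun h' => by
    rw [List.mem_map] at h'; obtain ⟨z, _, h⟩ := h'; omega
  have b : NN I + j ∉ (I.men (j - I.nw)).map (fun x => I.nm + x) := fun h' => by
    rw [List.mem_map] at h'; obtain ⟨z, hz, h⟩ := h'
    have := I.men_lt (j - I.nw) (by omega) _ hz
    omega
  rw [womenJ_2 I h1 h2]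
  unfold Prefers
  rw [List.idxOf_append_of_notMem a, List.idxOf_append_of_notMem b, List.idxOf_cons_self,
    List.idxOf_cons_ne _ (by omega)]
  omega

end Women

/-- finite sets: an injective total relation without cycles through `x₀` -/
lemma fin_inj (S : Finset ℕ) (R : ℕ → ℕ → Prop) (tot : ∀ x ∈ S, ∃ y ∈ S, R x y)
    (inj : ∀ x x' y, R x y → R x' y → x = x') (x₀ : ℕ) (h0 : x₀ ∈ S) (hx : ∀ x ∈ S, ¬ R x x₀) :
    False := by
  classical
  choose! f hfS hfR using tot
  have h1 : (S.image f).card = S.card := Finset.card_image_of_injOn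
    (fun x hx' x' hx'' h => inj x x' (f x) (hfR x hx') (by rw [h]; exact hfR x' hx''))
  have h2 : S.image f ⊆ S.erase x₀ := by
    intro y hy
    rw [Finset.mem_image] at hy
    obtain ⟨x, hxS, rfl⟩ := hy
    rw [Finset.mem_erase]
    exact ⟨fun h => hx x hxS (by rw [← h]; exact hfR x hxS), hfS x hxS⟩
  have h3 := Finset.card_le_card h2
  rw [h1, Finset.card_erase_of_mem h0] at h3
  have h4 : 0 < S.card := Finset.card_pos.mpr ⟨x₀, h0⟩
  omega

end Pool.Agent.Helper65.OBP
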